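import Pool.Agent.R857.WS.Curve

set_option autoImplicit false
set_option linter.unusedSectionVars false

namespace Pool.Agent.R857.WS

open Polynomial

section

variable (k : Type) [Field k] [IsAlgClosed k] [CharZero k]

/-- the radicand `(x^4-1)^7 (x^5-2)^5` -/
noncomputable def rad : k[X] := h1 k ^ 7 * h2 k ^ 5

/-- the defining polynomial -/
noncomputable def gpoly : (RatFunc k)[X] := X ^ 35 - C (algebraMap k[X] (RatFunc k) (rad k))

lemma rad_ne : rad k ≠ 0 := mul_ne_zero (pow_ne_zero _ h1_ne) (pow_ne_zero _ h2_ne)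

lemma natDegree_rad : (rad k).natDegree = 53 := by
  rw [rad, natDegree_mul (pow_ne_zero _ h1_ne) (pow_ne_zero _ h2_ne), natDegree_pow, natDegree_pow,
    h1, h2, natDegree_X_pow_sub_C, natDegree_X_pow_sub_C]

lemma irr : Irreducible (gpoly k) := by
  apply X_pow_sub_C_irreducible_of_odd (by decide)
  intro p hp hpn b hb
  have hb0 : b ≠ 0 := by
    rintro rfl
    rw [zero_pow hp.ne_zero] at hb
    have := (IsFractionRing.to_map_eq_zero_iff (R := k[X]) (K := RatFunc k)).1 hb.symm
    exact rad_ne k this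
  have hdeg : ∀ n : ℕ, (b ^ n).intDegree = n * b.intDegree := by
    intro n
    induction n with
    | zero => simp
    | succ n ih =>
      rw [pow_succ, RatFunc.intDegree_mul (pow_ne_zero _ hb0) hb0, ih]
      push_cast; ring
  have h3 := hdeg p
  rw [hb, RatFunc.intDegree_polynomial, natDegree_rad] at h3
  have h4 : (p : ℤ) ∣ ((53 : ℕ) : ℤ) := ⟨_, h3⟩
  rw [Int.natCast_dvd_natCast] at h4
  have h5 : p ∣ Nat.gcd 35 53 := Nat.dvd_gcd hpn h4
  have h6 : p ∣ 1 := by simpa using h5
  exact hp.one_lt.ne' (Nat.dvd_one.1 h6)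

variable {k} in
lemma eval₂_gpoly {T : Type} [CommRing T] (i : RatFunc k →+* T) (t : T) :
    eval₂ i t (gpoly k) = t ^ 35 - i (algebraMap k[X] (RatFunc k) (rad k)) := by
  rw [gpoly, eval₂_sub, eval₂_pow, eval₂_X, eval₂_C]

theorem exists_pointed_curve : ∃ (K : Type) (_ : Field K) (_ : Algebra k K), IsFunctionField k K ∧
    ∃ P : ValuationSubring K, IsPoint k P ∧
      weierstrassSemigroup k P = (AddSubmonoid.closure ({25, 28, 35} : Set ℕ) : Set ℕ) := by
  have : Fact (Irreducible (gpoly k)) := ⟨irr k⟩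
  have hmonic : (gpoly k).Monic := monic_X_pow_sub_C _ (by norm_num)
  have : FiniteDimensional (RatFunc k) (AdjoinRoot (gpoly k)) := hmonic.finite_adjoinRoot
  refine ⟨AdjoinRoot (gpoly k), inferInstance, inferInstance, ?_⟩
  set w : AdjoinRoot (gpoly k) := AdjoinRoot.root (gpoly k) with hw
  have hw35 : w ^ 35 = algebraMap k[X] (AdjoinRoot (gpoly k)) (rad k) := by
    have h3 := AdjoinRoot.eval₂_root (gpoly k)
    rw [gpoly, eval₂_sub, eval₂_pow, eval₂_X, eval₂_C, sub_eq_zero] at h3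
    exact h3
  have hinj : Function.Injective (algebraMap k[X] (AdjoinRoot (gpoly k))) :=
    algebraMap_inj (RatFunc k)
  have h10 : algebraMap k[X] (AdjoinRoot (gpoly k)) (h1 k) ≠ 0 := fun h =>
    h1_ne (hinj (by rw [h, map_zero]))
  have h20 : algebraMap k[X] (AdjoinRoot (gpoly k)) (h2 k) ≠ 0 := fun h =>
    h2_ne (hinj (by rw [h, map_zero]))
  set H1 := algebraMap k[X] (AdjoinRoot (gpoly k)) (h1 k) with hH1
  set H2 := algebraMap k[X] (AdjoinRoot (gpoly k)) (h2 k) with hH2
  have hw35' : w ^ 35 = H1 ^ 7 * H2 ^ 5 := by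
    rw [hw35, rad, map_mul, map_pow, map_pow]
  apply exists_of_tower (F := RatFunc k) (w := w) (y := w ^ 21 / (H1 ^ 4 * H2 ^ 3))
    (z := w ^ 15 / (H1 ^ 3 * H2 ^ 2))
  · have e : w ^ 21 * w ^ 15 = w ^ 35 * w := by ring
    rw [div_mul_div_comm, e, hw35']
    field_simp
  · have e : (w ^ 21) ^ 5 = (w ^ 35) ^ 3 := by ring
    rw [div_pow, e, hw35', ← hH1]
    field_simp
  · have e : (w ^ 15) ^ 7 = (w ^ 35) ^ 3 := by ring
    rw [div_pow, e, hw35', ← hH2]
    field_simp
  · intro f
    obtain ⟨p, rfl⟩ := AdjoinRoot.mk_surjective f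
    refine ⟨(p %ₘ gpoly k).coeff, ?_⟩
    have h3 : AdjoinRoot.mk (gpoly k) p = AdjoinRoot.mk (gpoly k) (p %ₘ gpoly k) := by
      rw [AdjoinRoot.mk_eq_mk]
      refine ⟨p /ₘ gpoly k, ?_⟩
      have := modByMonic_add_div p (gpoly k)
      linear_combination (-1 : (RatFunc k)[X]) * this
    have hdeg : (p %ₘ gpoly k).natDegree < 35 := by
      have h4 := natDegree_modByMonic_lt p hmonic (by
        intro h
        have := congrArg natDegree h
        rw [gpoly, natDegree_X_pow_sub_C, natDegree_one] at this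
        norm_num at this)
      rwa [show (gpoly k).natDegree = 35 from natDegree_X_pow_sub_C] at h4
    rw [h3, ← AdjoinRoot.aeval_eq, aeval_eq_sum_range' hdeg]
  · intro ζ hζ
    have hE : eval₂ (Algebra.ofId (RatFunc k) (AdjoinRoot (gpoly k))).toRingHom
        (algebraMap k[X] (AdjoinRoot (gpoly k)) (C ζ) * w) (gpoly k) = 0 := by
      have e : (Algebra.ofId (RatFunc k) (AdjoinRoot (gpoly k)))
          (algebraMap k[X] (RatFunc k) (rad k)) = algebraMap k[X] (AdjoinRoot (gpoly k)) (rad k) := by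
        rw [Algebra.ofId_apply, ← IsScalarTower.algebraMap_apply]
      have e2 : (algebraMap k[X] (AdjoinRoot (gpoly k)) (C ζ)) ^ 35 = 1 := by
        rw [← map_pow, ← C_pow, hζ, C_1, map_one]
      refine (eval₂_gpoly _ _).trans ?_
      rw [mul_pow, hw35, e2, one_mul, sub_eq_zero]
      exact e.symm
    refine ⟨AdjoinRoot.liftAlgHom (gpoly k) (Algebra.ofId _ _)
      (algebraMap k[X] (AdjoinRoot (gpoly k)) (C ζ) * w) hE, ?_⟩
    rw [AdjoinRoot.coe_liftAlgHom]
    exact AdjoinRoot.lift_root hE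

end

end Pool.Agent.R857.WS
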