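import Pool.Agent.R857.WS.Main2

set_option autoImplicit false
set_option linter.unusedSectionVars false

namespace Pool.Agent.R857.WS

open IsLocalRing

section general

lemma isIntegral_of_forall {A K : Type} [CommRing A] [Field K] [Algebra A K] {f : K}
    (h : ∀ V : ValuationSubring K, (∀ a : A, algebraMap A K a ∈ V) → f ∈ V) : IsIntegral A f := by
  have h2 : f ∈ (⨅ V : {V : ValuationSubring K // Set.range (algebraMap A K) ⊆ V.toSubring},
      V.1.toSubring) := by
    rw [Subring.mem_iInf]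
    exact fun V => h V.1 (fun a => V.2 ⟨a, rfl⟩)
  rw [iInf_valuationSubring_superset] at h2
  have h3 : IsIntegral (Subring.closure (Set.range (algebraMap A K))) f := h2
  have e : Subring.closure (Set.range (algebraMap A K)) = (algebraMap A K).range := by
    rw [← RingHom.coe_range, Subring.closure_eq]
  obtain ⟨p, hp, hpf⟩ := h3
  have hl : p ∈ Polynomial.lifts ((algebraMap A K).codRestrict
      (Subring.closure (Set.range (algebraMap A K))) (fun c => Subring.subset_closure ⟨c, rfl⟩)) := by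
    rw [Polynomial.lifts_iff_coeff_lifts]
    intro n
    have h5 : (p.coeff n : K) ∈ (algebraMap A K).range := by rw [← e]; exact (p.coeff n).2
    obtain ⟨c, hc⟩ := h5
    exact ⟨c, Subtype.ext hc⟩
  obtain ⟨q, hq, -, hqm⟩ := Polynomial.lifts_and_degree_eq_and_monic hl hp
  refine ⟨q, hqm, ?_⟩
  rw [← hq, Polynomial.eval₂_map] at hpf
  exact hpf

end general

section

variable {k K : Type} [Field k] [Field K] [Algebra k K]

/-- the span of all normal form monomials -/
def M (k : Type) [Field k] {R : Type} [CommRing R] [Algebra k R] (x y z : R) : Submodule k R :=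
  Submodule.span k (Set.range fun τ : {τ : ℕ × ℕ × ℕ // τ.2.1 < 5 ∧ τ.2.2 < 7} => mon x y z τ)

/-- the valuations of `x`, `y`, `z` at a pole of `x` -/
lemma vals {Q : ValuationSubring K} (hQ : IsPoint k Q) {x y z : K} {a b : k}
    (hy : y ^ 5 = x ^ 4 - algebraMap k K a) (hz : z ^ 7 = x ^ 5 - algebraMap k K b)
    (hx : x ∉ Q) : 1 < Q.valuation z ^ 9 / Q.valuation y ^ 8 ∧
      Q.valuation x = (Q.valuation z ^ 9 / Q.valuation y ^ 8) ^ 35 ∧
      Q.valuation y = (Q.valuation z ^ 9 / Q.valuation y ^ 8) ^ 28 ∧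
      Q.valuation z = (Q.valuation z ^ 9 / Q.valuation y ^ 8) ^ 25 := by
  have hx1 : 1 < Q.valuation x := by
    rw [← Q.valuation_le_one_iff, not_le] at hx; exact hx
  have hpow : ∀ (n : ℕ) (c : k), 0 < n → Q.valuation (x ^ n - algebraMap k K c) = Q.valuation x ^ n := by
    intro n c hn
    have h1 : Q.valuation (algebraMap k K c) < Q.valuation (x ^ n) := by
      rw [map_pow]
      exact lt_of_le_of_lt (val_const_le hQ c) (one_lt_pow₀ hx1 hn.ne')
    rw [Valuation.map_sub_eq_of_lt_left _ h1, map_pow]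
  have hvy : Q.valuation y ^ 5 = Q.valuation x ^ 4 := by
    rw [← map_pow, hy, hpow 4 a (by norm_num)]
  have hvz : Q.valuation z ^ 7 = Q.valuation x ^ 5 := by
    rw [← map_pow, hz, hpow 5 b (by norm_num)]
  set u := Q.valuation x with hu
  set vy := Q.valuation y with hvy'
  set vz := Q.valuation z with hvz'
  have hu0 : u ≠ 0 := (lt_trans zero_lt_one hx1).ne'
  have hvy0 : vy ≠ 0 := by
    intro h; rw [h, zero_pow (by norm_num)] at hvy
    exact pow_ne_zero 4 hu0 hvy.symm
  have hvy35 : vy ^ 35 = u ^ 28 := by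
    calc vy ^ 35 = (vy ^ 5) ^ 7 := by rw [← pow_mul]
      _ = _ := by rw [hvy, ← pow_mul]
  have hvz35 : vz ^ 35 = u ^ 25 := by
    calc vz ^ 35 = (vz ^ 7) ^ 5 := by rw [← pow_mul]
      _ = _ := by rw [hvz, ← pow_mul]
  set q := vz ^ 9 / vy ^ 8 with hq
  have hq35 : q ^ 35 = u := by
    rw [hq, div_pow]
    have h1 : (vz ^ 9) ^ 35 = u ^ 225 := by
      rw [← pow_mul, mul_comm, pow_mul, hvz35, ← pow_mul]
    have h2 : (vy ^ 8) ^ 35 = u ^ 224 := by
      rw [← pow_mul, mul_comm, pow_mul, hvy35, ← pow_mul]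
    rw [h1, h2, div_eq_iff (pow_ne_zero _ hu0)]
    exact pow_succ' u 224
  have hinj : ∀ s t : Q.ValueGroup, s ^ 35 = t ^ 35 → s = t := by
    intro s t hst
    exact (pow_left_inj₀ zero_le zero_le (by norm_num)).1 hst
  refine ⟨?_, hq35.symm, ?_, ?_⟩
  · by_contra h
    rw [not_lt] at h
    have := pow_le_one₀ (zero_le (a := q)) h (n := 35)
    rw [hq35] at this
    exact absurd hx1 (not_lt.2 this)
  · apply hinj
    rw [hvy35, ← pow_mul, mul_comm 28 35, pow_mul, hq35]
  · apply hinj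
    rw [hvz35, ← pow_mul, mul_comm 25 35, pow_mul, hq35]

/-- the weight of a nonzero element of the span of the monomials -/
lemma exists_weight {x y z : K} {a b : k}
    (hy : y ^ 5 = x ^ 4 - algebraMap k K a) (hz : z ^ 7 = x ^ 5 - algebraMap k K b)
    {s : K} (hs : s ∈ M k x y z) (hs0 : s ≠ 0) :
    ∃ n ∈ AddSubmonoid.closure ({25, 28, 35} : Set ℕ), ∀ Q : ValuationSubring K, IsPoint k Q → x ∉ Q →
      Q.valuation s = (Q.valuation z ^ 9 / Q.valuation y ^ 8) ^ n := by
  classical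
  unfold M at hs
  rw [Finsupp.mem_span_range_iff_exists_finsupp] at hs
  obtain ⟨c, hc⟩ := hs
  have hne : c.support.Nonempty := by
    rw [Finset.nonempty_iff_ne_empty]
    intro h
    rw [Finsupp.support_eq_empty] at h
    rw [h, Finsupp.sum_zero_index] at hc
    exact hs0 hc.symm
  obtain ⟨i0, hi0, hmax⟩ := Finset.exists_max_image _ (fun i => wt i.1) hne
  refine ⟨wt i0.1, (mem_closure_iff _).2 ⟨_, _, _, i0.2.1, i0.2.2, rfl⟩, fun Q hQ hxQ => ?_⟩
  obtain ⟨hq, hvx, hvy, hvz⟩ := vals hQ hy hz hxQ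
  obtain ⟨i1, hi1, hi1', hi2, hi3⟩ := val_sum_mon hQ hq hvx hvy hvz c.support c
    ⟨i0, hi0, Finsupp.mem_support_iff.1 hi0⟩
  have h1 : wt i1.1 = wt i0.1 := le_antisymm (hmax i1 hi1) (hi2 i0 hi0 (Finsupp.mem_support_iff.1 hi0))
  rw [← hc, Finsupp.sum, hi3, h1]

/-- there is at most one pole of `x` -/
lemma unique_pole {x y z : K} {a b : k}
    (hy : y ^ 5 = x ^ 4 - algebraMap k K a) (hz : z ^ 7 = x ^ 5 - algebraMap k K b)
    (hfrac : ∀ f : K, ∃ s ∈ M k x y z, ∃ t ∈ M k x y z, t ≠ 0 ∧ f = s / t)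
    {Q Q' : ValuationSubring K} (hQ : IsPoint k Q) (hQ' : IsPoint k Q') (hx : x ∉ Q) (hx' : x ∉ Q') :
    Q = Q' := by
  have key : ∀ Q Q' : ValuationSubring K, IsPoint k Q → IsPoint k Q' → x ∉ Q → x ∉ Q' →
      ∀ f ∈ Q, f ∈ Q' := by
    intro Q Q' hQ hQ' hx hx' f hf
    by_cases hf0 : f = 0
    · rw [hf0]; exact Q'.zero_mem
    obtain ⟨s, hs, t, ht, ht0, rfl⟩ := hfrac f
    have hs0 : s ≠ 0 := by rintro rfl; rw [zero_div] at hf0; exact hf0 rfl
    obtain ⟨n, -, hn⟩ := exists_weight hy hz hs hs0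
    obtain ⟨m, -, hm⟩ := exists_weight hy hz ht ht0
    have hq := (vals hQ hy hz hx).1
    have hq' := (vals hQ' hy hz hx').1
    rw [← Q.valuation_le_one_iff, map_div₀, hn Q hQ hx, hm Q hQ hx,
      div_le_one₀ (pow_pos (lt_trans zero_lt_one hq) _), pow_le_pow_iff_right₀ hq] at hf
    rw [← Q'.valuation_le_one_iff, map_div₀, hn Q' hQ' hx', hm Q' hQ' hx',
      div_le_one₀ (pow_pos (lt_trans zero_lt_one hq') _), pow_le_pow_iff_right₀ hq']
    exact hf
  ext f
  exact ⟨key Q Q' hQ hQ' hx hx' f, key Q' Q hQ' hQ hx' hx f⟩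

/-- there is a pole of `x` -/
lemma exists_pole {x : K} (hx : ¬ IsIntegral k x) : ∃ P : ValuationSubring K, IsPoint k P ∧ x ∉ P := by
  by_contra h
  push Not at h
  apply hx
  apply isIntegral_of_forall
  intro V hV
  by_cases htop : V = ⊤
  · rw [htop]; exact ValuationSubring.mem_top _
  · exact h V ⟨hV, htop⟩

/-- the Weierstrass semigroup at the pole of `x` -/
theorem semigroup_eq {x y z : K} {a b : k}
    (hy : y ^ 5 = x ^ 4 - algebraMap k K a) (hz : z ^ 7 = x ^ 5 - algebraMap k K b)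
    (hfrac : ∀ f : K, ∃ s ∈ M k x y z, ∃ t ∈ M k x y z, t ≠ 0 ∧ f = s / t)
    (hint : ∀ f : K, (∀ V : ValuationSubring K, (∀ c : k, algebraMap k K c ∈ V) → x ∈ V → f ∈ V) →
      f ∈ M k x y z)
    {P : ValuationSubring K} (hP : IsPoint k P) (hx : x ∉ P) :
    weierstrassSemigroup k P = (AddSubmonoid.closure ({25, 28, 35} : Set ℕ) : Set ℕ) := by
  obtain ⟨hq, hvx, hvy, hvz⟩ := vals hP hy hz hx
  set q := P.valuation z ^ 9 / P.valuation y ^ 8 with hqdef
  have hq0 : q ≠ 0 := (lt_trans zero_lt_one hq).ne'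
  have hz0 : z ≠ 0 := by
    rw [← Valuation.ne_zero_iff P.valuation, hvz]; exact pow_ne_zero _ hq0
  have hy0 : y ≠ 0 := by
    rw [← Valuation.ne_zero_iff P.valuation, hvy]; exact pow_ne_zero _ hq0
  set π := y ^ 8 / z ^ 9 with hπdef
  have hvπ : P.valuation π = q⁻¹ := by
    rw [hπdef, map_div₀, map_pow, map_pow, hqdef, inv_div]
  have hπ : IsUnif P π := by
    refine ⟨div_ne_zero (pow_ne_zero _ hy0) (pow_ne_zero _ hz0), ?_, ?_⟩
    · rw [hvπ]; exact inv_lt_one_of_one_lt₀ hq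
    · intro f hf
      rw [hvπ]
      by_cases hf0 : f = 0
      · rw [hf0, map_zero]; exact zero_le
      obtain ⟨s, hs, t, ht, ht0, rfl⟩ := hfrac f
      have hs0 : s ≠ 0 := by rintro rfl; rw [zero_div] at hf0; exact hf0 rfl
      obtain ⟨n, -, hn⟩ := exists_weight hy hz hs hs0
      obtain ⟨m, -, hm⟩ := exists_weight hy hz ht ht0
      rw [map_div₀, hn P hP hx, hm P hP hx, ← hqdef, div_lt_one₀ (pow_pos (lt_trans zero_lt_one hq) _),
        pow_lt_pow_iff_right₀ hq] at hf
      rw [map_div₀, hn P hP hx, hm P hP hx, ← hqdef, div_le_iff₀ (pow_pos (lt_trans zero_lt_one hq) _)]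
      have h1 : m = (m - 1) + 1 := by omega
      rw [h1, pow_succ', inv_mul_cancel_left₀ hq0]
      exact pow_le_pow_right₀ hq.le (by omega)
  have hmem : ∀ f : K, f ∈ regularAway k P ↔ f ∈ M k x y z := by
    intro f
    constructor
    · intro hf
      apply hint
      intro V hV hxV
      by_cases htop : V = ⊤
      · rw [htop]; exact ValuationSubring.mem_top _
      · refine hf V ⟨hV, htop⟩ ?_
        rintro rfl
        exact hx hxV
    · intro hf Q hQ hQP
      have hxQ : x ∈ Q := by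
        by_contra hxQ
        exact hQP (unique_pole hy hz hfrac hQ hP hxQ hx)
      have hyQ : y ∈ Q := by
        rw [← Q.valuation_le_one_iff]
        have h1 : y ^ 5 ∈ Q := by
          rw [hy]; exact sub_mem (pow_mem hxQ 4) (hQ.1 a)
        rw [← Q.valuation_le_one_iff, map_pow] at h1
        exact (pow_le_one_iff_of_nonneg zero_le (by norm_num)).1 h1
      have hzQ : z ∈ Q := by
        rw [← Q.valuation_le_one_iff]
        have h1 : z ^ 7 ∈ Q := by
          rw [hz]; exact sub_mem (pow_mem hxQ 5) (hQ.1 b)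
        rw [← Q.valuation_le_one_iff, map_pow] at h1
        exact (pow_le_one_iff_of_nonneg zero_le (by norm_num)).1 h1
      unfold M at hf
      induction hf using Submodule.span_induction with
      | mem s hs =>
        obtain ⟨τ, rfl⟩ := hs
        exact mul_mem (mul_mem (pow_mem hxQ _) (pow_mem hyQ _)) (pow_mem hzQ _)
      | zero => exact Q.zero_mem
      | add s t _ _ hs ht => exact Q.add_mem _ _ hs ht
      | smul c s _ hs => rw [Algebra.smul_def]; exact Q.mul_mem _ _ (hQ.1 c) hs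
  ext n
  constructor
  · rintro ⟨f, hf, hfn⟩
    rw [hπ.pole_iff] at hfn
    obtain ⟨hf0, hf1⟩ := hfn
    obtain ⟨m, hm, hm'⟩ := exists_weight hy hz ((hmem f).1 hf) hf0
    rw [hm' P hP hx, ← hqdef, hvπ, inv_pow, ← div_eq_mul_inv, div_eq_one_iff_eq (pow_ne_zero _ hq0)] at hf1
    have : m = n := pow_right_injective₀ (lt_trans zero_lt_one hq) hq.ne' hf1
    rw [← this]; exact hm
  · intro hn
    obtain ⟨i, j, l, hj, hl, rfl⟩ := (mem_closure_iff n).1 hn
    have hmM : mon x y z (i, j, l) ∈ M k x y z :=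
      Submodule.subset_span ⟨⟨(i, j, l), hj, hl⟩, rfl⟩
    refine ⟨mon x y z (i, j, l), (hmem _).2 hmM, (hπ.pole_iff _ _).2 ⟨?_, ?_⟩⟩
    · rw [← Valuation.ne_zero_iff P.valuation, val_mon hvx hvy hvz]
      exact pow_ne_zero _ hq0
    · rw [val_mon hvx hvy hvz, hvπ, inv_pow]
      exact mul_inv_cancel₀ (pow_ne_zero _ hq0)

end

end Pool.Agent.R857.WS
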