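import Pool.Agent.R857.WS.Kummer
import Pool.Agent.R857.WS.Exist

set_option autoImplicit false
set_option linter.unusedSectionVars false

namespace Pool.Agent.R857.WS

open Polynomial

section

variable {k F K : Type} [Field k] [IsAlgClosed k] [CharZero k] [Field F] [Field K]
  [Algebra k[X] F] [IsFractionRing k[X] F] [Algebra F K] [Algebra k[X] K] [IsScalarTower k[X] F K]
  [Algebra k K] [IsScalarTower k k[X] K]

lemma algebraMap_C (c : k) : algebraMap k[X] K (C c) = algebraMap k K c := by
  rw [IsScalarTower.algebraMap_apply k k[X] K]; rfl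

lemma algebraMap_inj (F : Type) [Field F] [Algebra k[X] F] [IsFractionRing k[X] F] [Algebra F K]
    [IsScalarTower k[X] F K] : Function.Injective (algebraMap k[X] K) := by
  rw [IsScalarTower.algebraMap_eq k[X] F K]
  exact (algebraMap F K).injective.comp (IsFractionRing.injective k[X] F)

lemma poly_mul_mem {y z : K} (p : k[X]) {b c : ℕ} (hb : b < 5) (hc : c < 7) :
    algebraMap k[X] K p * (y ^ b * z ^ c) ∈ M k (algebraMap k[X] K X) y z := by
  induction p using Polynomial.induction_on' with
  | add p q hp hq => rw [map_add, add_mul]; exact Submodule.add_mem _ hp hq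
  | monomial n a =>
    have e : algebraMap k[X] K (monomial n a) * (y ^ b * z ^ c)
        = a • mon (algebraMap k[X] K X) y z (n, b, c) := by
      rw [← C_mul_X_pow_eq_monomial, map_mul, algebraMap_C, map_pow, Algebra.smul_def]
      simp only [mon]
      ring
    rw [e]
    apply Submodule.smul_mem
    exact Submodule.subset_span ⟨⟨(n, b, c), hb, hc⟩, rfl⟩

/-- integral elements are in the span of the monomials -/
lemma mem_of_integral {w y z : K} (hyz : y * z = w)
    (hy : y ^ 5 = algebraMap k[X] K (h1 k)) (hz : z ^ 7 = algebraMap k[X] K (h2 k))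
    (hspan : ∀ f : K, ∃ r : ℕ → F, f = ∑ i ∈ Finset.range 35, r i • w ^ i)
    (hσ : ∀ ζ : k, ζ ^ 35 = 1 → ∃ σ : K →ₐ[F] K, σ w = algebraMap k[X] K (C ζ) * w)
    {f : K} (hf : IsIntegral k[X] f) : f ∈ M k (algebraMap k[X] K X) y z := by
  obtain ⟨r, hr⟩ := hspan f
  -- a primitive root of unity
  obtain ⟨ζ, hζ⟩ : ∃ ζ : k, IsPrimitiveRoot ζ 35 := by
    have : NeZero ((35 : ℕ) : k) := ⟨by norm_num⟩
    have hdeg : (cyclotomic 35 k).degree ≠ 0 := by
      rw [degree_cyclotomic]
      intro h
      have h2 : Nat.totient 35 = 0 := by exact_mod_cast h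
      rw [Nat.totient_eq_zero] at h2
      norm_num at h2
    obtain ⟨ζ, hζ⟩ := IsAlgClosed.exists_root (cyclotomic 35 k) hdeg
    exact ⟨ζ, isRoot_cyclotomic_iff.1 hζ⟩
  obtain ⟨σ, hσ'⟩ := hσ ζ hζ.pow_eq_one
  have hζ' : IsPrimitiveRoot (algebraMap k[X] F (C ζ)) 35 := by
    apply IsPrimitiveRoot.map_of_injective _ (IsFractionRing.injective k[X] F)
    exact hζ.map_of_injective C_injective
  have hu : IsUnit ((35 : ℕ) : k[X]) := by
    rw [← C_eq_natCast, isUnit_C]
    exact IsUnit.mk0 _ (by norm_num)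
  have hcomp := comp_integral (R := k[X]) (F := F) (K := K) (n := 35) (by norm_num) hu hζ' σ hσ' r
    (by rw [← hr]; exact hf)
  rw [hr]
  refine Submodule.sum_mem _ fun j hj => ?_
  have hj' := Finset.mem_range.1 hj
  have hwj := hcomp j hj'
  have hw35 : w ^ 35 = algebraMap k[X] K (h1 k ^ 7 * h2 k ^ 5) := by
    rw [← hyz, mul_pow, map_mul, map_pow, map_pow, ← hy, ← hz, ← pow_mul, ← pow_mul]
  -- the component
  have hF : IsIntegral k[X] (r j ^ 35 * algebraMap k[X] F ((h1 k ^ 7 * h2 k ^ 5) ^ j)) := by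
    have h3 := hwj.pow 35
    have h4 : (r j • w ^ j) ^ 35 =
        algebraMap F K (r j ^ 35 * algebraMap k[X] F ((h1 k ^ 7 * h2 k ^ 5) ^ j)) := by
      rw [map_mul, ← IsScalarTower.algebraMap_apply k[X] F K, map_pow (algebraMap k[X] K) _ j,
        ← hw35, Algebra.smul_def, mul_pow, map_pow (algebraMap F K)]
      ring
    rw [h4] at h3
    exact (isIntegral_algebraMap_iff (algebraMap F K).injective).1 h3
  obtain ⟨c, hc⟩ := IsIntegrallyClosed.isIntegral_iff.1 hF
  obtain ⟨p, hp⟩ : ∃ p : k[X], r j * algebraMap k[X] F (h1 k ^ (j / 5) * h2 k ^ (j / 7))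
      = algebraMap k[X] F p := by
    apply mem_of_pow (g := h1 k ^ (7 * (j % 5)) * h2 k ^ (5 * (j % 7))) (c := c)
    · rw [mul_pow]
      apply mul_dvd_mul
      · apply pow_dvd_pow; omega
      · apply pow_dvd_pow; omega
    · rw [hc, mul_pow, mul_assoc, ← map_pow, ← map_mul]
      refine congrArg (fun t => r j ^ 35 * algebraMap k[X] F t) ?_
      rw [mul_pow (h1 k ^ 7) (h2 k ^ 5) j, mul_pow (h1 k ^ (j / 5))]
      have e3 : (h1 k ^ 7) ^ j = (h1 k ^ (j / 5)) ^ 35 * h1 k ^ (7 * (j % 5)) := by
        rw [← pow_mul, ← pow_mul, ← pow_add]; congr 1; omega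
      have e4 : (h2 k ^ 5) ^ j = (h2 k ^ (j / 7)) ^ 35 * h2 k ^ (5 * (j % 7)) := by
        rw [← pow_mul, ← pow_mul, ← pow_add]; congr 1; omega
      rw [e3, e4]; ring
  have e : r j • w ^ j = algebraMap k[X] K p * (y ^ (j % 5) * z ^ (j % 7)) := by
    rw [IsScalarTower.algebraMap_apply k[X] F K p, ← hp, map_mul, Algebra.smul_def,
      ← IsScalarTower.algebraMap_apply, map_mul, map_pow, map_pow, ← hy, ← hz, ← hyz, mul_pow]
    have e1 : y ^ j = (y ^ 5) ^ (j / 5) * y ^ (j % 5) := by
      rw [← pow_mul, ← pow_add]; congr 1; omega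
    have e2 : z ^ j = (z ^ 7) ^ (j / 7) * z ^ (j % 7) := by
      rw [← pow_mul, ← pow_add]; congr 1; omega
    rw [e1, e2]; ring
  rw [e]
  exact poly_mul_mem p (Nat.mod_lt _ (by norm_num)) (Nat.mod_lt _ (by norm_num))

variable (F) in
lemma alg [FiniteDimensional F K] : Algebra.IsAlgebraic k[X] K := by
  have h1 : Algebra.IsAlgebraic k[X] F := IsLocalization.isAlgebraic F (nonZeroDivisors k[X])
  have h2 : Algebra.IsAlgebraic F K := Algebra.IsAlgebraic.of_finite F K
  exact Algebra.IsAlgebraic.trans k[X] F K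

/-- the existence of a pointed curve with semigroup `⟨25, 28, 35⟩` -/
theorem exists_of_tower [FiniteDimensional F K] {w y z : K} (hyz : y * z = w)
    (hy : y ^ 5 = algebraMap k[X] K (h1 k)) (hz : z ^ 7 = algebraMap k[X] K (h2 k))
    (hspan : ∀ f : K, ∃ r : ℕ → F, f = ∑ i ∈ Finset.range 35, r i • w ^ i)
    (hσ : ∀ ζ : k, ζ ^ 35 = 1 → ∃ σ : K →ₐ[F] K, σ w = algebraMap k[X] K (C ζ) * w) :
    IsFunctionField k K ∧ ∃ P : ValuationSubring K, IsPoint k P ∧
      weierstrassSemigroup k P = (AddSubmonoid.closure ({25, 28, 35} : Set ℕ) : Set ℕ) := by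
  have hinj : Function.Injective (algebraMap k[X] K) := algebraMap_inj F
  have halg : Algebra.IsAlgebraic k[X] K := alg F
  constructor
  · constructor
    · classical
      refine ⟨{algebraMap k[X] K X, w}, ?_⟩
      rw [eq_top_iff]
      intro f _
      obtain ⟨r, rfl⟩ := hspan f
      set L := IntermediateField.adjoin k
        ((({algebraMap k[X] K X, w} : Finset K) : Set K)) with hL
      have hxL : algebraMap k[X] K X ∈ L := IntermediateField.subset_adjoin _ _ (by simp)
      have hwL : w ∈ L := IntermediateField.subset_adjoin _ _ (by simp)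
      have hpL : ∀ p : k[X], algebraMap k[X] K p ∈ L := by
        intro p
        induction p using Polynomial.induction_on' with
        | add p q hp hq => rw [map_add]; exact add_mem hp hq
        | monomial n a =>
          rw [← C_mul_X_pow_eq_monomial, map_mul, algebraMap_C, map_pow]
          exact mul_mem (L.algebraMap_mem a) (pow_mem hxL n)
      have hrL : ∀ s : F, algebraMap F K s ∈ L := by
        intro s
        obtain ⟨a, b, -, rfl⟩ := IsFractionRing.div_surjective (A := k[X]) s
        rw [map_div₀, ← IsScalarTower.algebraMap_apply, ← IsScalarTower.algebraMap_apply]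
        exact div_mem (hpL a) (hpL b)
      refine sum_mem fun i _ => ?_
      rw [Algebra.smul_def]
      exact mul_mem (hrL _) (pow_mem hwL i)
    · have : FaithfulSMul k[X] K := (faithfulSMul_iff_algebraMap_injective k[X] K).2 hinj
      rw [← trdeg_add_eq k k[X] (A := K), Polynomial.trdeg_of_isDomain, trdeg_eq_zero,
        add_zero]
  · have hxint : ¬ IsIntegral k (algebraMap k[X] K X) := by
      intro h
      have h3 : IsIntegral k (X : k[X]) := by
        have h4 : algebraMap k[X] K X = (IsScalarTower.toAlgHom k k[X] K) X := rfl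
        rw [h4] at h
        exact (isIntegral_algHom_iff (IsScalarTower.toAlgHom k k[X] K) hinj).1 h
      exact transcendental_X k h3.isAlgebraic
    have hy' : y ^ 5 = algebraMap k[X] K X ^ 4 - algebraMap k K 1 := by
      rw [hy, h1, map_sub, map_pow, algebraMap_C]
    have hz' : z ^ 7 = algebraMap k[X] K X ^ 5 - algebraMap k K 2 := by
      rw [hz, h2, map_sub, map_pow, algebraMap_C]
    have hmem : ∀ {f : K}, IsIntegral k[X] f → f ∈ M k (algebraMap k[X] K X) y z := fun hf =>
      mem_of_integral hyz hy hz hspan hσ hf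
    obtain ⟨P, hP, hxP⟩ := exists_pole hxint
    refine ⟨P, hP, semigroup_eq hy' hz' ?_ ?_ hP hxP⟩
    · intro f
      obtain ⟨b, hb0, hb⟩ := (halg.isAlgebraic f).exists_integral_multiple
      refine ⟨b • f, hmem hb, algebraMap k[X] K b, hmem isIntegral_algebraMap, ?_, ?_⟩
      · intro h
        exact hb0 (hinj (by rw [h, map_zero]))
      · have : algebraMap k[X] K b ≠ 0 := fun h => hb0 (hinj (by rw [h, map_zero]))
        rw [Algebra.smul_def, mul_div_cancel_left₀ _ this]
    · intro f hf
      apply hmem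
      apply isIntegral_of_forall
      intro V hV
      apply hf V
      · intro c
        rw [← algebraMap_C]; exact hV _
      · exact hV X

end

end Pool.Agent.R857.WS
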