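import Pool.Agent.R857.WS.Place

set_option autoImplicit false
set_option linter.unusedSectionVars false

/-! # A pointed curve is determined by the coordinate ring of the complement of the point -/

namespace Pool.Agent.R857.WS

open Polynomial IsLocalRing

section

variable {k K : Type} [Field k] [Field K] [Algebra k K]

/-- a function with a pole at `P` is not in `P` -/
lemma HasPoleOfOrder.notMem {P : ValuationSubring K} {f : K} {n : ℕ} (hn : n ≠ 0)
    (h : HasPoleOfOrder P f n) : f ∉ P := by
  intro hf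
  obtain ⟨hf0, hfi, h1⟩ := h
  have hu : IsUnit (⟨f⁻¹, hfi⟩ : P) := by
    refine IsUnit.of_mul_eq_one ⟨f, hf⟩ (Subtype.ext ?_)
    exact inv_mul_cancel₀ hf0
  rw [Ideal.span_singleton_eq_top.2 hu] at h1
  have h2 : (⊤ : Ideal P) ≤ maximalIdeal P := by
    rw [h1]; exact Ideal.pow_le_self hn
  exact (IsLocalRing.maximalIdeal.isMaximal P).ne_top (top_le_iff.1 h2)

/-- integral elements over subrings of a valuation ring are in the valuation ring -/
lemma mem_of_isIntegral {A : Type} [CommRing A] [Algebra A K] {Q : ValuationSubring K}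
    (hA : ∀ a : A, algebraMap A K a ∈ Q) {g : K} (hg : IsIntegral A g) : g ∈ Q := by
  obtain ⟨p, hp, hpg⟩ := hg
  by_contra hgQ
  rw [← Q.valuation_le_one_iff, not_le] at hgQ
  have hg0 : Q.valuation g ≠ 0 := (lt_trans zero_lt_one hgQ).ne'
  rw [eval₂_eq_sum_range, Finset.sum_range_succ, hp.coeff_natDegree, map_one, one_mul] at hpg
  have h1 : g ^ p.natDegree = -∑ i ∈ Finset.range p.natDegree, algebraMap A K (p.coeff i) * g ^ i := by
    linear_combination hpg
  rcases Nat.eq_zero_or_pos p.natDegree with h0 | hpos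
  · rw [h0] at h1
    simp at h1
  have h2 : Q.valuation (g ^ p.natDegree) < Q.valuation g ^ p.natDegree := by
    conv_lhs => rw [h1]
    rw [Valuation.map_neg]
    refine Valuation.map_sum_lt _ (pow_ne_zero _ hg0) fun i hi => ?_
    rw [map_mul, map_pow]
    calc _ ≤ 1 * Q.valuation g ^ i := by
          gcongr
          exact (Q.valuation_le_one_iff _).2 (hA _)
      _ = Q.valuation g ^ i := one_mul _
      _ < Q.valuation g ^ p.natDegree := pow_lt_pow_right₀ hgQ (Finset.mem_range.1 hi)
  rw [map_pow] at h2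
  exact lt_irrefl _ h2

variable [IsAlgClosed k]

/-- the field is the fraction field of the coordinate ring -/
lemma exists_frac (hK : IsFunctionField k K) {P : ValuationSubring K} (hP : IsPoint k P) {x : K}
    (hx : x ∈ regularAway k P) (hxP : x ∉ P) (f : K) :
    ∃ a b : regularAway k P, f = (a : K) / (b : K) := by
  have hxt : Transcendental k x := by
    intro h
    obtain ⟨c, hc⟩ := exists_const_of_isAlgebraic h
    exact hxP (hc ▸ hP.1 c)
  have halg := isAlgebraic_adjoin hK hxt
  obtain ⟨b, hb0, hb⟩ := (halg.isAlgebraic f).exists_integral_multiple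
  have hadj : ∀ (c : Algebra.adjoin k {x}) (Q : ValuationSubring K), IsPoint k Q → Q ≠ P →
      algebraMap (Algebra.adjoin k {x}) K c ∈ Q := by
    intro c Q hQ hQP
    have h1 : Algebra.adjoin k {x} ≤ regularAway k P := Algebra.adjoin_le (by simpa using hx)
    exact h1 c.2 Q hQ hQP
  have hbf : b • f ∈ regularAway k P := by
    intro Q hQ hQP
    exact mem_of_isIntegral (fun c => hadj c Q hQ hQP) hb
  have hbR : (b : K) ∈ regularAway k P := fun Q hQ hQP => hadj b Q hQ hQP
  refine ⟨⟨b • f, hbf⟩, ⟨b, hbR⟩, ?_⟩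
  have hb0' : (b : K) ≠ 0 := fun h => hb0 (Subtype.ext h)
  change f = (b • f) / (b : K)
  rw [Algebra.smul_def]
  exact (mul_div_cancel_left₀ f hb0').symm

/-- an isomorphism of the coordinate rings of the complements of the points induces an isomorphism of
the pointed curves -/
theorem iso_of_regular_iso {K' : Type} [Field K'] [Algebra k K'] (hK : IsFunctionField k K)
    (hK' : IsFunctionField k K') {P : ValuationSubring K} {P' : ValuationSubring K'}
    (hP : IsPoint k P) (hP' : IsPoint k P') {x : K} (hx : x ∈ regularAway k P) (hxP : x ∉ P)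
    (ψ : regularAway k P ≃ₐ[k] regularAway k P') :
    ∃ φ : K ≃ₐ[k] K', ∀ f, f ∈ P ↔ φ f ∈ P' := by
  have hψx : ((ψ ⟨x, hx⟩ : regularAway k P') : K') ∉ P' := by
    intro h
    obtain ⟨c, hc⟩ := const_of_regular (ψ ⟨x, hx⟩).2 ((P'.valuation_le_one_iff _).2 h)
    have h1 : ψ ⟨x, hx⟩ = algebraMap k (regularAway k P') c := Subtype.ext hc.symm
    have h2 : (⟨x, hx⟩ : regularAway k P) = algebraMap k (regularAway k P) c := by
      apply ψ.injective
      rw [h1, AlgEquiv.commutes]
    have h3 : x = algebraMap k K c := congrArg Subtype.val h2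
    exact hxP (h3 ▸ hP.1 c)
  have i1 : IsFractionRing (regularAway k P) K := by
    refine IsFractionRing.of_field _ _ fun f => ?_
    obtain ⟨a, b, h⟩ := exists_frac hK hP hx hxP f
    exact ⟨a, b, h⟩
  have i2 : IsFractionRing (regularAway k P') K' := by
    refine IsFractionRing.of_field _ _ fun f => ?_
    obtain ⟨a, b, h⟩ := exists_frac hK' hP' (ψ ⟨x, hx⟩).2 hψx f
    exact ⟨a, b, h⟩
  let φ : K ≃ₐ[k] K' := IsFractionRing.algEquivOfAlgEquiv ψ
  have hφ : ∀ a : regularAway k P, φ (a : K) = ((ψ a : regularAway k P') : K') := fun a =>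
    IsFractionRing.algEquivOfAlgEquiv_algebraMap ψ a
  refine ⟨φ, ?_⟩
  -- the image of P
  set Q : ValuationSubring K' := P.comap (φ.symm : K' →+* K) with hQ
  have hmem : ∀ f : K', f ∈ Q ↔ φ.symm f ∈ P := fun f => Iff.rfl
  have hxQ : φ x ∉ Q := by
    rw [hmem, AlgEquiv.symm_apply_apply]; exact hxP
  have hQpt : IsPoint k Q := by
    refine ⟨fun c => ?_, fun h => ?_⟩
    · rw [hmem, AlgEquiv.commutes]; exact hP.1 c
    · apply hxQ; rw [h]; exact ValuationSubring.mem_top _
  have hQP : Q = P' := by
    by_contra hne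
    have h1 := (ψ ⟨x, hx⟩).2 Q hQpt hne
    rw [← hφ ⟨x, hx⟩] at h1
    exact hxQ h1
  intro f
  rw [← hQP, hmem, AlgEquiv.symm_apply_apply]

end

end Pool.Agent.R857.WS
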