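import Mathlib

set_option autoImplicit false
set_option linter.unusedSectionVars false

namespace Pool.Agent.R857.WS

open Polynomial

section poly

variable {k : Type} [Field k] [CharZero k]

/-- `x^4 - 1` -/
noncomputable def h1 (k : Type) [Field k] : k[X] := X ^ 4 - C 1

/-- `x^5 - 2` -/
noncomputable def h2 (k : Type) [Field k] : k[X] := X ^ 5 - C 2

lemma h1_ne : h1 k ≠ 0 := X_pow_sub_C_ne_zero (by norm_num) _

lemma h2_ne : h2 k ≠ 0 := X_pow_sub_C_ne_zero (by norm_num) _

lemma sqfree : Squarefree (h1 k * h2 k) := by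
  have hs1 : Squarefree (h1 k) := by
    apply Separable.squarefree
    apply separable_X_pow_sub_C
    · norm_num
    · exact one_ne_zero
  have hs2 : Squarefree (h2 k) := by
    apply Separable.squarefree
    apply separable_X_pow_sub_C
    · norm_num
    · norm_num
  have hcop : IsCoprime (h1 k) (h2 k) := by
    refine ⟨C (1 / 15) * (1 + (X ^ 3 + C 2 * X ^ 2 + C 4 * X + C 8) * X),
      - C (1 / 15) * (X ^ 3 + C 2 * X ^ 2 + C 4 * X + C 8), ?_⟩
    have e : (C (1 / 15) : k[X]) * C 15 = 1 := by
      rw [← C_mul, ← C_1]; congr 1; norm_num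
    have e2 : (C (2 : k)) = (2 : k[X]) := rfl
    have e4 : (C (4 : k)) = (4 : k[X]) := rfl
    have e8 : (C (8 : k)) = (8 : k[X]) := rfl
    have e15 : (C (15 : k)) = (15 : k[X]) := rfl
    have e1 : (C (1 : k)) = (1 : k[X]) := rfl
    rw [e15] at e
    rw [h1, h2, e1, e2, e4, e8]
    linear_combination (1 : k[X]) * e
  exact (squarefree_mul_iff).2 ⟨hcop.isRelPrime, hs1, hs2⟩

lemma unit_of_pow_dvd {b : k[X]} (hb : b ^ 35 ∣ (h1 k * h2 k) ^ 30) : IsUnit b := by
  by_contra hu
  have hH : h1 k * h2 k ≠ 0 := mul_ne_zero h1_ne h2_ne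
  have hb0 : b ≠ 0 := by
    rintro rfl
    rw [zero_pow (by norm_num), zero_dvd_iff] at hb
    exact pow_ne_zero _ hH hb
  obtain ⟨p, hp, hpb⟩ := WfDvdMonoid.exists_irreducible_factor hu hb0
  have hpr : Prime p := hp.prime
  have h3 : p ^ 35 ∣ (h1 k * h2 k) ^ 30 := (pow_dvd_pow_of_dvd hpb 35).trans hb
  have h4 : p ∣ h1 k * h2 k := hpr.dvd_of_dvd_pow ((dvd_pow_self p (by norm_num)).trans h3)
  obtain ⟨u, hu'⟩ := h4
  rw [hu', mul_pow] at h3
  have h5 : p ^ 5 ∣ u ^ 30 := by
    have : p ^ 30 * p ^ 5 ∣ p ^ 30 * u ^ 30 := by rw [← pow_add]; exact h3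
    exact (mul_dvd_mul_iff_left (pow_ne_zero _ hp.ne_zero)).1 this
  have h6 : p ∣ u := hpr.dvd_of_dvd_pow ((dvd_pow_self p (by norm_num)).trans h5)
  have h7 : p * p ∣ h1 k * h2 k := by rw [hu']; exact mul_dvd_mul_left p h6
  exact hp.not_isUnit (sqfree p h7)

lemma mem_of_pow {F : Type} [Field F] [Algebra k[X] F] [IsFractionRing k[X] F] {s : F} {g c : k[X]}
    (hg : g ∣ (h1 k * h2 k) ^ 30) (hs : s ^ 35 * algebraMap k[X] F g = algebraMap k[X] F c) :
    ∃ p : k[X], s = algebraMap k[X] F p := by
  obtain ⟨a, b, hab, hb⟩ := IsFractionRing.exists_reduced_fraction (A := k[X]) s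
  have hb0 : (b : k[X]) ≠ 0 := nonZeroDivisors.ne_zero b.2
  have hb0' : algebraMap k[X] F b ≠ 0 := by
    rw [Ne, IsFractionRing.to_map_eq_zero_iff]; exact hb0
  have hs' : s = algebraMap k[X] F a / algebraMap k[X] F b := by
    rw [← hb, IsFractionRing.mk'_eq_div]
  have h3 : a ^ 35 * g = c * (b : k[X]) ^ 35 := by
    apply IsFractionRing.injective k[X] F
    rw [hs', div_pow, div_mul_eq_mul_div, div_eq_iff (pow_ne_zero _ hb0')] at hs
    rw [map_mul, map_mul, map_pow, map_pow]
    exact hs
  have h4 : (b : k[X]) ^ 35 ∣ g := by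
    have h5 : (b : k[X]) ^ 35 ∣ a ^ 35 * g := ⟨c, by rw [h3]; ring⟩
    have h6 : IsCoprime ((b : k[X]) ^ 35) (a ^ 35) := by
      apply IsCoprime.pow
      exact hab.symm.isCoprime
    exact h6.dvd_of_dvd_mul_left h5
  have hu : IsUnit (b : k[X]) := unit_of_pow_dvd (h4.trans hg)
  obtain ⟨v, hv⟩ := hu.exists_left_inv
  refine ⟨v * a, ?_⟩
  rw [hs', map_mul, div_eq_iff hb0']
  have : algebraMap k[X] F v * algebraMap k[X] F b = 1 := by rw [← map_mul, hv, map_one]
  linear_combination (-algebraMap k[X] F a) * this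

end poly

section comp

variable {R F K : Type} [CommRing R] [Field F] [Field K] [Algebra R F] [Algebra F K] [Algebra R K]
  [IsScalarTower R F K]

/-- the components of an integral element with respect to an automorphism are integral -/
lemma comp_integral {n : ℕ} (hn : 0 < n) (hnR : IsUnit (n : R)) {ζ : R} {w : K}
    (hζ : IsPrimitiveRoot (algebraMap R F ζ) n)
    (σ : K →ₐ[F] K) (hσ : σ w = algebraMap R K ζ * w) (r : ℕ → F)
    (hf : IsIntegral R (∑ i ∈ Finset.range n, r i • w ^ i)) (j : ℕ) (hj : j < n) :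
    IsIntegral R (r j • w ^ j) := by
  set f := ∑ i ∈ Finset.range n, r i • w ^ i with hfdef
  have hpow : ∀ a i : ℕ, (σ^[a]) (w ^ i) = algebraMap R K ζ ^ (a * i) * w ^ i := by
    intro a
    induction a with
    | zero => intro i; simp
    | succ a ih =>
      intro i
      rw [Function.iterate_succ_apply', ih, map_mul, map_pow, map_pow, hσ, mul_pow]
      have : σ (algebraMap R K ζ) = algebraMap R K ζ := by
        rw [IsScalarTower.algebraMap_apply R F K]; exact σ.commutes _
      rw [this, ← mul_assoc, ← pow_add, add_mul, one_mul]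
  have hit : ∀ a : ℕ, (σ^[a]) f = ∑ i ∈ Finset.range n, r i • (algebraMap R K ζ ^ (a * i) * w ^ i) := by
    intro a
    have e : ∀ g : K, (σ^[a]) g = (σ ^ a) g := by
      intro g; rw [AlgHom.coe_pow]
    rw [e, hfdef, map_sum]
    refine Finset.sum_congr rfl fun i _ => ?_
    rw [map_smul, ← e, hpow]
  have hint : ∀ a : ℕ, IsIntegral R ((σ^[a]) f) := by
    intro a
    induction a with
    | zero => exact hf
    | succ a ih =>
      rw [Function.iterate_succ_apply']
      exact ih.map (σ.restrictScalars R)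
  have hsum : ∑ a ∈ Finset.range n, algebraMap R K ζ ^ (a * (n - j)) * (σ^[a]) f
      = (n : K) * (r j • w ^ j) := by
    simp only [hit, Finset.mul_sum]
    rw [Finset.sum_comm]
    have h1 : ∀ i ∈ Finset.range n, ∑ a ∈ Finset.range n,
        algebraMap R K ζ ^ (a * (n - j)) * (r i • (algebraMap R K ζ ^ (a * i) * w ^ i))
        = (if i = j then (n : K) else 0) * (r i • w ^ i) := by
      intro i hi
      have hi' := Finset.mem_range.1 hi
      have h2 : ∀ a, algebraMap R K ζ ^ (a * (n - j)) * (r i • (algebraMap R K ζ ^ (a * i) * w ^ i))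
          = ((algebraMap R K ζ ^ (n - j + i)) ^ a) * (r i • w ^ i) := by
        intro a
        rw [mul_smul_comm, mul_smul_comm, ← mul_assoc, ← pow_add, ← pow_mul]
        congr 3
        ring
      simp only [h2]
      rw [← Finset.sum_mul]
      congr 1
      have hζK : IsPrimitiveRoot (algebraMap R K ζ) n := by
        rw [IsScalarTower.algebraMap_apply R F K]
        exact hζ.map_of_injective (algebraMap F K).injective
      split_ifs with hij
      · subst hij
        have : n - i + i = n := by omega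
        rw [this, hζK.pow_eq_one]
        simp
      · have h3 : algebraMap R K ζ ^ (n - j + i) ≠ 1 := by
          rw [Ne, hζK.pow_eq_one_iff_dvd]
          intro h4
          obtain ⟨m, hm⟩ := h4
          rcases Nat.lt_or_ge m 1 with hm1 | hm1
          · have : m = 0 := by omega
            subst this; omega
          · rcases Nat.lt_or_ge m 2 with hm2 | hm2
            · have : m = 1 := by omega
              subst this; omega
            · have : n * 2 ≤ n * m := Nat.mul_le_mul_left n hm2
              omega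
        have h4 := geom_sum_mul (algebraMap R K ζ ^ (n - j + i)) n
        rw [← pow_mul, mul_comm _ n, pow_mul, hζK.pow_eq_one, one_pow, sub_self] at h4
        exact (mul_eq_zero.1 h4).resolve_right (sub_ne_zero.2 h3)
    rw [Finset.sum_congr rfl h1]
    simp only [ite_mul, zero_mul]
    rw [Finset.sum_ite_eq' (Finset.range n) j]
    rw [if_pos (Finset.mem_range.2 hj)]
  have hI : IsIntegral R ((n : K) * (r j • w ^ j)) := by
    rw [← hsum]
    refine IsIntegral.sum _ fun a _ => ?_
    exact (isIntegral_algebraMap.pow _).mul (hint a)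
  obtain ⟨v, hv⟩ := hnR.exists_left_inv
  have h5 : r j • w ^ j = algebraMap R K v * ((n : K) * (r j • w ^ j)) := by
    rw [← mul_assoc]
    have : algebraMap R K v * (n : K) = 1 := by
      rw [← map_natCast (algebraMap R K) n, ← map_mul, hv, map_one]
    rw [this, one_mul]
  rw [h5]
  exact isIntegral_algebraMap.mul hI

end comp

end Pool.Agent.R857.WS
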