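import Pool.Agent.R857.WS.Upper

set_option autoImplicit false
set_option linter.unusedSectionVars false

namespace Pool.Agent.R857.WS

open MvPolynomial IsLocalRing

section

variable {k K : Type} [Field k] [Field K] [Algebra k K]

lemma val_mon {P : ValuationSubring K} {q : P.ValueGroup} {x y z : K}
    (hx : P.valuation x = q ^ 35) (hy : P.valuation y = q ^ 28) (hz : P.valuation z = q ^ 25)
    (τ : ℕ × ℕ × ℕ) : P.valuation (mon x y z τ) = q ^ wt τ := by
  simp only [mon, wt, map_mul, map_pow, hx, hy, hz, ← pow_mul, ← pow_add]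

lemma val_smul {P : ValuationSubring K} (hP : IsPoint k P) {c : k} (hc : c ≠ 0) (f : K) :
    P.valuation (c • f) = P.valuation f := by
  rw [Algebra.smul_def, map_mul, val_const hP hc, one_mul]

lemma val_smul_le {P : ValuationSubring K} (hP : IsPoint k P) (c : k) (f : K) :
    P.valuation (c • f) ≤ P.valuation f := by
  rw [Algebra.smul_def, map_mul]
  exact mul_le_of_le_one_left' (val_const_le hP c)

lemma val_sum_mon {P : ValuationSubring K} (hP : IsPoint k P) {q : P.ValueGroup} (hq : 1 < q)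
    {x y z : K}
    (hx : P.valuation x = q ^ 35) (hy : P.valuation y = q ^ 28) (hz : P.valuation z = q ^ 25)
    (s : Finset {τ : ℕ × ℕ × ℕ // τ.2.1 < 5 ∧ τ.2.2 < 7})
    (g : {τ : ℕ × ℕ × ℕ // τ.2.1 < 5 ∧ τ.2.2 < 7} → k) (hg : ∃ i ∈ s, g i ≠ 0) :
    ∃ i ∈ s, g i ≠ 0 ∧ (∀ j ∈ s, g j ≠ 0 → wt j ≤ wt i) ∧
      P.valuation (∑ i ∈ s, g i • mon x y z i) = q ^ wt i := by
  classical
  have hne : (s.filter fun i => g i ≠ 0).Nonempty := by
    obtain ⟨i, hi, hi'⟩ := hg
    exact ⟨i, Finset.mem_filter.2 ⟨hi, hi'⟩⟩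
  obtain ⟨i0, hi0, hmax⟩ := Finset.exists_max_image _ (fun i => wt i.1) hne
  obtain ⟨hi0s, hgi0⟩ := Finset.mem_filter.1 hi0
  refine ⟨i0, hi0s, hgi0, fun j hj hgj => hmax j (Finset.mem_filter.2 ⟨hj, hgj⟩), ?_⟩
  rw [← Finset.add_sum_erase _ _ hi0s]
  have h1 : P.valuation (g i0 • mon x y z i0) = q ^ wt i0 := by
    rw [val_smul hP hgi0, val_mon hx hy hz]
  have hq0 : 0 < q := lt_trans zero_lt_one hq
  have h2 : P.valuation (∑ j ∈ s.erase i0, g j • mon x y z j) < q ^ wt i0 := by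
    refine Valuation.map_sum_lt _ (pow_ne_zero _ hq0.ne') fun j hj => ?_
    obtain ⟨hji, hjs⟩ := Finset.mem_erase.1 hj
    by_cases hgj : g j = 0
    · rw [hgj, zero_smul, map_zero]; exact pow_pos hq0 _
    · rw [val_smul hP hgj, val_mon hx hy hz]
      apply pow_lt_pow_right₀ hq
      have h3 := hmax j (Finset.mem_filter.2 ⟨hjs, hgj⟩)
      refine lt_of_le_of_ne h3 fun h4 => hji ?_
      obtain ⟨e1, e2, e3⟩ := weight_inj j.2.1 i0.2.1 j.2.2 i0.2.2 h4
      exact Subtype.ext (Prod.ext e1 (Prod.ext e2 e3))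
  rw [Valuation.map_add_eq_of_lt_left _ (by rw [h1]; exact h2), h1]

lemma linInd {P : ValuationSubring K} (hP : IsPoint k P) {q : P.ValueGroup} (hq : 1 < q)
    {x y z : K}
    (hx : P.valuation x = q ^ 35) (hy : P.valuation y = q ^ 28) (hz : P.valuation z = q ^ 25) :
    LinearIndependent k (fun τ : {τ : ℕ × ℕ × ℕ // τ.2.1 < 5 ∧ τ.2.2 < 7} => mon x y z τ) := by
  rw [linearIndependent_iff']
  intro s g h
  by_contra hcon
  push Not at hcon
  obtain ⟨i, _, _, _, h1⟩ := val_sum_mon hP hq hx hy hz s g hcon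
  rw [h, map_zero] at h1
  exact pow_ne_zero _ (lt_trans zero_lt_one hq).ne' h1.symm

variable [IsAlgClosed k]

/-- the data of a pointed curve with semigroup `⟨25, 28, 35⟩` -/
lemma span_regular (hK : IsFunctionField k K) {P : ValuationSubring K} (hP : IsPoint k P)
    {π : K} (hπ : IsUnif P π)
    (hS : weierstrassSemigroup k P = (AddSubmonoid.closure ({25, 28, 35} : Set ℕ) : Set ℕ))
    {x y z : K} (hxR : x ∈ regularAway k P) (hyR : y ∈ regularAway k P) (hzR : z ∈ regularAway k P)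
    (hx : P.valuation x = (P.valuation π)⁻¹ ^ 35) (hy : P.valuation y = (P.valuation π)⁻¹ ^ 28)
    (hz : P.valuation z = (P.valuation π)⁻¹ ^ 25) :
    ∀ (N : ℕ) (f : K), f ∈ regularAway k P → P.valuation f < (P.valuation π)⁻¹ ^ N →
      f ∈ Submodule.span k (mon x y z '' {τ | τ.2.1 < 5 ∧ τ.2.2 < 7 ∧ wt τ < N}) := by
  have hπ0 : P.valuation π ≠ 0 := (Valuation.ne_zero_iff _).2 hπ.ne
  have hq : 1 < (P.valuation π)⁻¹ := (one_lt_inv₀ (zero_lt_iff.2 hπ0)).2 hπ.lt
  have hmonR : ∀ τ, mon x y z τ ∈ regularAway k P := fun τ =>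
    mul_mem (mul_mem (pow_mem hxR _) (pow_mem hyR _)) (pow_mem hzR _)
  intro N
  induction N with
  | zero =>
    intro f hf hlt
    rw [pow_zero] at hlt
    obtain ⟨c, hc⟩ := const_of_regular hf hlt.le
    by_cases h0 : c = 0
    · rw [← hc, h0, map_zero]; exact Submodule.zero_mem _
    · rw [← hc, val_const hP h0] at hlt
      exact absurd hlt (lt_irrefl _)
  | succ N ih =>
    intro f hf hlt
    by_cases hf0 : f = 0
    · rw [hf0]; exact Submodule.zero_mem _
    obtain ⟨n, hn⟩ := hπ.exists_order hK hP hf hf0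
    rw [hn] at hlt
    have hnN : n < N + 1 := (pow_lt_pow_iff_right₀ hq).1 hlt
    have hnS : n ∈ (AddSubmonoid.closure ({25, 28, 35} : Set ℕ) : Set ℕ) := by
      rw [← hS]
      refine ⟨f, hf, (hπ.pole_iff f n).2 ⟨hf0, ?_⟩⟩
      rw [hn, ← mul_pow, inv_mul_cancel₀ hπ0, one_pow]
    obtain ⟨i, j, l, hj, hl, hijl⟩ := (mem_closure_iff n).1 hnS
    set e := mon x y z (i, j, l) with he
    have hve : P.valuation e = (P.valuation π)⁻¹ ^ n := by
      rw [he, val_mon hx hy hz, hijl]; rfl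
    have he0 : e ≠ 0 := by
      rw [← Valuation.ne_zero_iff P.valuation, hve]
      exact pow_ne_zero _ (inv_ne_zero hπ0)
    have hu : P.valuation (f / e) ≤ 1 := by
      rw [map_div₀, hn, hve, div_self (pow_ne_zero _ (inv_ne_zero hπ0))]
    obtain ⟨c, hc⟩ := exists_residue hK hP hπ.lt hπ.ne hu
    have h1 : f - c • e = (f / e - algebraMap k K c) * e := by
      rw [sub_mul, div_mul_cancel₀ _ he0, Algebra.smul_def]
    have h2 : P.valuation (f - c • e) < (P.valuation π)⁻¹ ^ N := by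
      rw [h1, map_mul, hve]
      have hpos : 0 < (P.valuation π)⁻¹ ^ n := pow_pos (lt_trans zero_lt_one hq) _
      calc P.valuation (f / e - algebraMap k K c) * (P.valuation π)⁻¹ ^ n
          < 1 * (P.valuation π)⁻¹ ^ n := mul_lt_mul_of_pos_right hc hpos
        _ = (P.valuation π)⁻¹ ^ n := one_mul _
        _ ≤ (P.valuation π)⁻¹ ^ N := pow_le_pow_right₀ hq.le (by omega)
    have h3 := ih (f - c • e) (sub_mem hf (Subalgebra.smul_mem _ (hmonR _) c)) h2
    have h4 : f = (f - c • e) + c • e := by ring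
    rw [h4]
    apply Submodule.add_mem
    · refine Submodule.span_mono (Set.image_mono ?_) h3
      rintro τ ⟨g1, g2, g3⟩
      exact ⟨g1, g2, by omega⟩
    · apply Submodule.smul_mem
      apply Submodule.subset_span
      exact ⟨(i, j, l), ⟨hj, hl, by simp only [wt]; omega⟩, rfl⟩

lemma exists_coeffs {x y z : K} {N : ℕ} (hN : N ≤ 175) {f : K}
    (hf : f ∈ Submodule.span k (mon x y z '' {τ | τ.2.1 < 5 ∧ τ.2.2 < 7 ∧ wt τ < N})) :
    ∃ A : expo N → k, f = ∑ τ : expo N, A τ • mon x y z (τ : ℕ × ℕ × ℕ) := by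
  have h1 : mon x y z '' {τ | τ.2.1 < 5 ∧ τ.2.2 < 7 ∧ wt τ < N} =
      Set.range (fun τ : expo N => mon x y z (τ : ℕ × ℕ × ℕ)) := by
    ext w
    constructor
    · rintro ⟨τ, h, rfl⟩
      exact ⟨⟨τ, (mem_expo hN τ).2 h⟩, rfl⟩
    · rintro ⟨τ, rfl⟩
      exact ⟨τ.1, (mem_expo hN τ.1).1 τ.2, rfl⟩
  rw [h1, Submodule.mem_span_range_iff_exists_fun] at hf
  obtain ⟨A, hA⟩ := hf
  exact ⟨A, hA.symm⟩

/-- the coordinate ring of `C ∖ {P}` has a presentation by two equations in the family -/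
lemma presentation (hK : IsFunctionField k K) {P : ValuationSubring K} (hP : IsPoint k P)
    (hS : weierstrassSemigroup k P = (AddSubmonoid.closure ({25, 28, 35} : Set ℕ) : Set ℕ)) :
    ∃ (A : expo 175 → k) (B : expo 140 → k),
      Nonempty (regularAway k P ≃ₐ[k] MvPolynomial (Fin 3) k ⧸ Ideal.span {eq1 A, eq2 B}) := by
  have hmem : ∀ n, inS n = true → ∃ f ∈ regularAway k P, HasPoleOfOrder P f n := by
    intro n hn
    have h : n ∈ weierstrassSemigroup k P := by rw [hS]; exact (inS_iff n).1 hn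
    exact h
  obtain ⟨a, -, ha⟩ := hmem 228 (by decide)
  obtain ⟨b, -, hb⟩ := hmem 229 (by decide)
  obtain ⟨π, hπ⟩ := exists_unif ha hb
  have hπ0 : P.valuation π ≠ 0 := (Valuation.ne_zero_iff _).2 hπ.ne
  have hq : 1 < (P.valuation π)⁻¹ := (one_lt_inv₀ (zero_lt_iff.2 hπ0)).2 hπ.lt
  have hval : ∀ n, inS n = true → ∃ f ∈ regularAway k P, f ≠ 0 ∧
      P.valuation f = (P.valuation π)⁻¹ ^ n := by
    intro n hn
    obtain ⟨f, hf, hfn⟩ := hmem n hn
    obtain ⟨hf0, hf1⟩ := (hπ.pole_iff f n).1 hfn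
    refine ⟨f, hf, hf0, ?_⟩
    rw [inv_pow]
    exact eq_inv_of_mul_eq_one_left hf1
  obtain ⟨x0, hx0R, hx00, hx0⟩ := hval 35 (by decide)
  obtain ⟨y0, hy0R, hy00, hy0⟩ := hval 28 (by decide)
  obtain ⟨z, hzR, hz0, hz⟩ := hval 25 (by decide)
  -- normalise x
  have hresc : ∀ (f g : K) (n : ℕ), f ≠ 0 → g ≠ 0 → P.valuation f = (P.valuation π)⁻¹ ^ n →
      P.valuation g = (P.valuation π)⁻¹ ^ n → ∃ c : k, c ≠ 0 ∧
        P.valuation (f - c • g) < (P.valuation π)⁻¹ ^ n := by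
    intro f g n hf0 hg0 hf hg
    have hqn : (P.valuation π)⁻¹ ^ n ≠ 0 := pow_ne_zero _ (inv_ne_zero hπ0)
    have hu : P.valuation (f / g) = 1 := by
      rw [map_div₀, hf, hg, div_self hqn]
    obtain ⟨c, hc⟩ := exists_residue hK hP hπ.lt hπ.ne hu.le
    refine ⟨c, ?_, ?_⟩
    · rintro rfl
      rw [map_zero, sub_zero, hu] at hc
      exact lt_irrefl _ hc
    · have h1 : f - c • g = (f / g - algebraMap k K c) * g := by
        rw [sub_mul, div_mul_cancel₀ _ hg0, Algebra.smul_def]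
      rw [h1, map_mul, hg]
      calc _ < 1 * (P.valuation π)⁻¹ ^ n :=
            mul_lt_mul_of_pos_right hc (pow_pos (lt_trans zero_lt_one hq) _)
        _ = _ := one_mul _
  obtain ⟨c, hc0, hc⟩ := hresc (z ^ 7) (x0 ^ 5) 175 (pow_ne_zero _ hz0) (pow_ne_zero _ hx00)
    (by rw [map_pow, hz, ← pow_mul]) (by rw [map_pow, hx0, ← pow_mul])
  obtain ⟨c', hc'⟩ := IsAlgClosed.exists_pow_nat_eq c (n := 5) (by norm_num)
  have hc'0 : c' ≠ 0 := by rintro rfl; rw [zero_pow (by norm_num)] at hc'; exact hc0 hc'.symm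
  set x := c' • x0 with hxdef
  have hx5 : x ^ 5 = c • x0 ^ 5 := by rw [hxdef, smul_pow, hc']
  have hx : P.valuation x = (P.valuation π)⁻¹ ^ 35 := by rw [hxdef, val_smul hP hc'0, hx0]
  have hxR : x ∈ regularAway k P := Subalgebra.smul_mem _ hx0R _
  have hx0' : x ≠ 0 := smul_ne_zero hc'0 hx00
  obtain ⟨d, hd0, hd⟩ := hresc (x ^ 4) (y0 ^ 5) 140 (pow_ne_zero _ hx0') (pow_ne_zero _ hy00)
    (by rw [map_pow, hx, ← pow_mul]) (by rw [map_pow, hy0, ← pow_mul])
  obtain ⟨d', hd'⟩ := IsAlgClosed.exists_pow_nat_eq d (n := 5) (by norm_num)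
  have hd'0 : d' ≠ 0 := by rintro rfl; rw [zero_pow (by norm_num)] at hd'; exact hd0 hd'.symm
  set y := d' • y0 with hydef
  have hy5 : y ^ 5 = d • y0 ^ 5 := by rw [hydef, smul_pow, hd']
  have hy : P.valuation y = (P.valuation π)⁻¹ ^ 28 := by rw [hydef, val_smul hP hd'0, hy0]
  have hyR : y ∈ regularAway k P := Subalgebra.smul_mem _ hy0R _
  have hspan := span_regular hK hP hπ hS hxR hyR hzR hx hy hz
  obtain ⟨A, hA⟩ := exists_coeffs (k := k) (le_refl 175) (hspan 175 (z ^ 7 - x ^ 5)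
    (sub_mem (pow_mem hzR _) (pow_mem hxR _)) (by rw [hx5]; exact hc))
  obtain ⟨B, hB⟩ := exists_coeffs (k := k) (by norm_num : 140 ≤ 175) (hspan 140 (y ^ 5 - x ^ 4)
    (sub_mem (pow_mem hyR _) (pow_mem hxR _)) (by
      rw [hy5, ← neg_sub, Valuation.map_neg]; exact hd))
  refine ⟨A, B, ?_⟩
  let φ : MvPolynomial (Fin 3) k →ₐ[k] K := aeval ![x, y, z]
  have e0 : φ (X 0) = x := by simp [φ]
  have e1 : φ (X 1) = y := by simp [φ]
  have e2 : φ (X 2) = z := by simp [φ]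
  have h1 : φ (eq1 A) = 0 := by rw [map_eq1, e0, e1, e2, hA, sub_self]
  have h2 : φ (eq2 B) = 0 := by rw [map_eq2, e0, e1, e2, hB, sub_self]
  have hker := ker_eq φ A B h1 h2 (by rw [e0, e1, e2]; exact linInd hP hq hx hy hz)
  have hrange : φ.range = regularAway k P := by
    apply le_antisymm
    · rintro _ ⟨p, rfl⟩
      change φ p ∈ regularAway k P
      have h3 := mem_span_of_rel φ A B h1 h2 p
      rw [e0, e1, e2] at h3
      have h4 : Submodule.span k (Set.range (fun τ : {τ : ℕ × ℕ × ℕ // τ.2.1 < 5 ∧ τ.2.2 < 7} =>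
          mon x y z τ)) ≤ Subalgebra.toSubmodule (regularAway k P) := by
        rw [Submodule.span_le]
        rintro _ ⟨τ, rfl⟩
        change mon x y z τ ∈ regularAway k P
        exact mul_mem (mul_mem (pow_mem hxR _) (pow_mem hyR _)) (pow_mem hzR _)
      exact h4 h3
    · intro f hf
      obtain ⟨N, hN⟩ : ∃ N, P.valuation f < (P.valuation π)⁻¹ ^ N := by
        by_cases hf0 : f = 0
        · exact ⟨0, by rw [hf0, map_zero, pow_zero]; exact zero_lt_one⟩
        · obtain ⟨n, hn⟩ := hπ.exists_order hK hP hf hf0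
          exact ⟨n + 1, by rw [hn]; exact pow_lt_pow_right₀ hq (Nat.lt_succ_self n)⟩
      have h3 := hspan N f hf hN
      have h4 : Submodule.span k (mon x y z '' {τ | τ.2.1 < 5 ∧ τ.2.2 < 7 ∧ wt τ < N}) ≤
          Subalgebra.toSubmodule φ.range := by
        rw [Submodule.span_le]
        rintro _ ⟨τ, -, rfl⟩
        refine ⟨mon (X 0) (X 1) (X 2) τ, ?_⟩
        change φ _ = _
        rw [map_mon, e0, e1, e2]
      exact h4 h3
  have E1 : (MvPolynomial (Fin 3) k ⧸ RingHom.ker φ) ≃ₐ[k] φ.range :=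
    Ideal.quotientKerEquivRange φ
  have E2 : (MvPolynomial (Fin 3) k ⧸ RingHom.ker φ) ≃ₐ[k]
      (MvPolynomial (Fin 3) k ⧸ Ideal.span {eq1 A, eq2 B}) :=
    Ideal.quotientEquivAlgOfEq k hker
  exact ⟨((Subalgebra.equivOfEq _ _ hrange.symm).trans E1.symm).trans E2⟩

end

/-- the first universal equation -/
noncomputable def univ1 (k : Type) [Field k] (σ : expo 175 ⊕ expo 140 ≃ Fin 107) :
    MvPolynomial (Fin 3) (MvPolynomial (Fin 107) k) :=
  X 2 ^ 7 - X 0 ^ 5 - ∑ τ : expo 175,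
    C (X (σ (Sum.inl τ))) * (X 0 ^ τ.1.1 * X 1 ^ τ.1.2.1 * X 2 ^ τ.1.2.2)

/-- the second universal equation -/
noncomputable def univ2 (k : Type) [Field k] (σ : expo 175 ⊕ expo 140 ≃ Fin 107) :
    MvPolynomial (Fin 3) (MvPolynomial (Fin 107) k) :=
  X 1 ^ 5 - X 0 ^ 4 - ∑ τ : expo 140,
    C (X (σ (Sum.inr τ))) * (X 0 ^ τ.1.1 * X 1 ^ τ.1.2.1 * X 2 ^ τ.1.2.2)

/-- The pointed curves with Weierstrass semigroup `⟨25, 28, 35⟩` depend on at most 107 parameters. -/
theorem dependOnAtMost (k : Type) [Field k] [IsAlgClosed k] :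
    DependOnAtMost k (AddSubmonoid.closure ({25, 28, 35} : Set ℕ) : Set ℕ) 107 := by
  classical
  have hcard : Fintype.card (expo 175 ⊕ expo 140) = 107 := by
    rw [Fintype.card_sum, Fintype.card_coe, Fintype.card_coe]; exact card_expo
  let σ : expo 175 ⊕ expo 140 ≃ Fin 107 := Fintype.equivFinOfCardEq hcard
  refine ⟨3, 2, ![univ1 k σ, univ2 k σ], ?_⟩
  intro K _ _ hK P hP hS
  obtain ⟨A, B, ⟨E⟩⟩ := presentation hK hP hS
  refine ⟨fun i => Sum.elim A B (σ.symm i), ⟨E.trans (Ideal.quotientEquivAlgOfEq k ?_)⟩⟩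
  congr 1
  ext p
  simp only [Set.mem_insert_iff, Set.mem_singleton_iff, Set.mem_range, Fin.exists_fin_two,
    Matrix.cons_val_zero, Matrix.cons_val_one]
  have g1 : MvPolynomial.map (MvPolynomial.eval fun i => Sum.elim A B (σ.symm i))
      (univ1 k σ) = eq1 A := by
    simp only [univ1, eq1, mon, map_sub, map_pow, map_sum, map_mul, map_X, map_C, eval_X,
      Equiv.symm_apply_apply, Sum.elim_inl, smul_eq_C_mul]
  have g2 : MvPolynomial.map (MvPolynomial.eval fun i => Sum.elim A B (σ.symm i))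
      (univ2 k σ) = eq2 B := by
    simp only [univ2, eq2, mon, map_sub, map_pow, map_sum, map_mul, map_X, map_C, eval_X,
      Equiv.symm_apply_apply, Sum.elim_inr, smul_eq_C_mul]
  rw [g1, g2]
  constructor
  · rintro (h | h)
    · exact Or.inl h.symm
    · exact Or.inr h.symm
  · rintro (h | h)
    · exact Or.inl h.symm
    · exact Or.inr h.symm

end Pool.Agent.R857.WS
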