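import Mathlib

set_option autoImplicit false

/-! # The numerical semigroup generated by 25, 28 and 35 -/

namespace Pool.Agent.R857.WS

/-- normal form of the elements of the numerical semigroup generated by 25, 28, 35 -/
lemma mem_closure_iff (n : ℕ) : n ∈ AddSubmonoid.closure ({25, 28, 35} : Set ℕ) ↔
    ∃ i j l : ℕ, j < 5 ∧ l < 7 ∧ n = 35 * i + 28 * j + 25 * l := by
  constructor
  · intro h
    induction h using AddSubmonoid.closure_induction with
    | mem x hx =>
      simp only [Set.mem_insert_iff, Set.mem_singleton_iff] at hx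
      rcases hx with rfl | rfl | rfl
      · exact ⟨0, 0, 1, by norm_num, by norm_num, by norm_num⟩
      · exact ⟨0, 1, 0, by norm_num, by norm_num, by norm_num⟩
      · exact ⟨1, 0, 0, by norm_num, by norm_num, by norm_num⟩
    | zero => exact ⟨0, 0, 0, by norm_num, by norm_num, by norm_num⟩
    | add x y _ _ hx hy =>
      obtain ⟨i, j, l, hj, hl, rfl⟩ := hx
      obtain ⟨i', j', l', hj', hl', rfl⟩ := hy
      refine ⟨i + i' + 4 * ((j + j') / 5) + 5 * ((l + l') / 7), (j + j') % 5, (l + l') % 7,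
        Nat.mod_lt _ (by norm_num), Nat.mod_lt _ (by norm_num), ?_⟩
      omega
  · rintro ⟨i, j, l, -, -, rfl⟩
    have h1 : (35 : ℕ) ∈ AddSubmonoid.closure ({25, 28, 35} : Set ℕ) :=
      AddSubmonoid.subset_closure (by simp)
    have h2 : (28 : ℕ) ∈ AddSubmonoid.closure ({25, 28, 35} : Set ℕ) :=
      AddSubmonoid.subset_closure (by simp)
    have h3 : (25 : ℕ) ∈ AddSubmonoid.closure ({25, 28, 35} : Set ℕ) :=
      AddSubmonoid.subset_closure (by simp)
    have e : 35 * i + 28 * j + 25 * l = i • 35 + j • 28 + l • 25 := by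
      simp only [smul_eq_mul]; ring
    rw [e]
    exact add_mem (add_mem (nsmul_mem h1 _) (nsmul_mem h2 _)) (nsmul_mem h3 _)

lemma weight_inj {i j l i' j' l' : ℕ} (hj : j < 5) (hj' : j' < 5) (hl : l < 7) (hl' : l' < 7)
    (h : 35 * i + 28 * j + 25 * l = 35 * i' + 28 * j' + 25 * l') : i = i' ∧ j = j' ∧ l = l' := by
  omega

/-- a decidable form of membership -/
def inS (n : ℕ) : Bool := (List.range 5).any fun j => (List.range 7).any fun l =>
  decide (28 * j + 25 * l ≤ n) && decide ((n - (28 * j + 25 * l)) % 35 = 0)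

lemma inS_iff (n : ℕ) : inS n = true ↔ n ∈ AddSubmonoid.closure ({25, 28, 35} : Set ℕ) := by
  rw [mem_closure_iff]
  simp only [inS, List.any_eq_true, List.mem_range, Bool.and_eq_true, decide_eq_true_eq]
  constructor
  · rintro ⟨j, hj, l, hl, h1, h2⟩
    exact ⟨(n - (28 * j + 25 * l)) / 35, j, l, hj, hl, by omega⟩
  · rintro ⟨i, j, l, hj, hl, rfl⟩
    exact ⟨j, hj, l, hl, by omega, by omega⟩

lemma inS_large (n : ℕ) (hn : 228 ≤ n) : inS n = true := by
  have h : ∀ r < 35, ∃ j < 5, ∃ l < 7, 28 * j + 25 * l ≤ 228 + r ∧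
      (228 + r - (28 * j + 25 * l)) % 35 = 0 := by decide
  obtain ⟨j, hj, l, hl, h1, h2⟩ := h ((n - 228) % 35) (Nat.mod_lt _ (by norm_num))
  simp only [inS, List.any_eq_true, List.mem_range, Bool.and_eq_true, decide_eq_true_eq]
  exact ⟨j, hj, l, hl, by omega, by omega⟩

lemma compl_eq : ((AddSubmonoid.closure ({25, 28, 35} : Set ℕ) : Set ℕ))ᶜ =
    ((Finset.range 228).filter fun n => inS n = false : Finset ℕ) := by
  ext n
  simp only [Set.mem_compl_iff, SetLike.mem_coe, Finset.coe_filter, Finset.mem_range,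
    Set.mem_setOf_eq]
  rw [← inS_iff]
  constructor
  · intro h
    refine ⟨?_, by simpa using h⟩
    by_contra hn
    exact h (inS_large n (by omega))
  · rintro ⟨_, h⟩
    simp [h]

lemma genus_eq : ((AddSubmonoid.closure ({25, 28, 35} : Set ℕ) : Set ℕ))ᶜ.ncard = 114 := by
  rw [compl_eq, Set.ncard_coe_finset]
  decide +kernel

lemma compl_finite : (((AddSubmonoid.closure ({25, 28, 35} : Set ℕ) : Set ℕ))ᶜ).Finite := by
  rw [compl_eq]; exact Finset.finite_toSet _

end Pool.Agent.R857.WS
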