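import Pool.Agent.R857.WS.Place

set_option autoImplicit false
set_option linter.unusedSectionVars false

namespace Pool.Agent.R857.WS

open Polynomial IsLocalRing

section

variable {k K : Type} [Field k] [Field K] [Algebra k K]

/-- `π` is a uniformizer of the valuation ring `P` (in terms of the valuation) -/
structure IsUnif (P : ValuationSubring K) (π : K) : Prop where
  ne : π ≠ 0
  lt : P.valuation π < 1
  le : ∀ f : K, P.valuation f < 1 → P.valuation f ≤ P.valuation π

lemma dvd_iff_val (P : ValuationSubring K) (a b : P) : a ∣ b ↔ P.valuation (b : K) ≤ P.valuation (a : K) := by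
  rw [P.valuation_le_iff]
  constructor
  · rintro ⟨c, rfl⟩
    exact ⟨c, by push_cast; ring⟩
  · rintro ⟨c, hc⟩
    exact ⟨c, Subtype.ext (by push_cast; rw [← hc]; ring)⟩

lemma IsUnif.maximalIdeal_eq {P : ValuationSubring K} {π : K} (h : IsUnif P π) (hm : π ∈ P) :
    maximalIdeal P = Ideal.span {(⟨π, hm⟩ : P)} := by
  ext a
  rw [P.valuation_lt_one_iff, Ideal.mem_span_singleton, dvd_iff_val]
  exact ⟨fun ha => h.le _ ha, fun ha => lt_of_le_of_lt ha h.lt⟩

lemma IsUnif.pole_iff {P : ValuationSubring K} {π : K} (h : IsUnif P π) (f : K) (n : ℕ) :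
    HasPoleOfOrder P f n ↔ f ≠ 0 ∧ P.valuation f * P.valuation π ^ n = 1 := by
  have hm : π ∈ P := (P.valuation_le_one_iff _).1 h.lt.le
  unfold HasPoleOfOrder
  refine and_congr_right fun hf => ?_
  have hf0 : P.valuation f ≠ 0 := (Valuation.ne_zero_iff _).2 hf
  have key : ∀ hfi : f⁻¹ ∈ P, Ideal.span {(⟨f⁻¹, hfi⟩ : P)} = maximalIdeal P ^ n ↔
      P.valuation f * P.valuation π ^ n = 1 := by
    intro hfi
    rw [h.maximalIdeal_eq hm, Ideal.span_singleton_pow, le_antisymm_iff,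
      Ideal.span_singleton_le_span_singleton, Ideal.span_singleton_le_span_singleton,
      dvd_iff_val, dvd_iff_val]
    push_cast
    rw [← le_antisymm_iff, map_inv₀, map_pow]
    constructor
    · intro h1; rw [← h1]; exact mul_inv_cancel₀ hf0
    · intro h1; exact inv_eq_of_mul_eq_one_right h1
  constructor
  · rintro ⟨hfi, h1⟩
    exact (key hfi).1 h1
  · intro h1
    have hfi : f⁻¹ ∈ P := by
      rw [← P.valuation_le_one_iff, map_inv₀]
      have h2 : (P.valuation f)⁻¹ = P.valuation π ^ n := inv_eq_of_mul_eq_one_right h1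
      rw [h2]
      exact pow_le_one₀ zero_le h.lt.le
    exact ⟨hfi, (key hfi).2 h1⟩

/-- consecutive pole orders give a uniformizer -/
lemma exists_unif {P : ValuationSubring K} {a b : K} {n : ℕ}
    (ha : HasPoleOfOrder P a n) (hb : HasPoleOfOrder P b (n + 1)) : ∃ π, IsUnif P π := by
  obtain ⟨ha0, ha1, ha2⟩ := ha
  obtain ⟨hb0, hb1, hb2⟩ := hb
  have h1 : Ideal.span {(⟨b⁻¹, hb1⟩ : P)} = Ideal.span {(⟨a⁻¹, ha1⟩ : P)} * maximalIdeal P := by
    rw [hb2, ha2, pow_succ]
  have h2 : (⟨b⁻¹, hb1⟩ : P) ∈ Ideal.span {(⟨a⁻¹, ha1⟩ : P)} * maximalIdeal P := by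
    rw [← h1]; exact Ideal.mem_span_singleton_self _
  rw [Ideal.mem_span_singleton_mul] at h2
  obtain ⟨c, hc, hc2⟩ := h2
  have ha' : (⟨a⁻¹, ha1⟩ : P) ≠ 0 := by
    intro h; apply ha0; have := congrArg Subtype.val h; simpa using this
  have h3 : maximalIdeal P = Ideal.span {c} := by
    have : Ideal.span {(⟨a⁻¹, ha1⟩ : P)} * maximalIdeal P
        = Ideal.span {(⟨a⁻¹, ha1⟩ : P)} * Ideal.span {c} := by
      rw [← h1, Ideal.span_singleton_mul_span_singleton, hc2]
    exact (Ideal.span_singleton_mul_right_inj ha').1 this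
  refine ⟨c, ?_, ?_, ?_⟩
  · intro h0
    have hc0 : c = 0 := Subtype.ext h0
    rw [hc0, mul_zero] at hc2
    have := congrArg Subtype.val hc2
    apply hb0; simpa using this.symm
  · exact (P.valuation_lt_one_iff c).1 hc
  · intro f hf
    have hfP : f ∈ P := (P.valuation_le_one_iff _).1 hf.le
    have h4 : (⟨f, hfP⟩ : P) ∈ maximalIdeal P := (P.valuation_lt_one_iff _).2 hf
    rw [h3, Ideal.mem_span_singleton, dvd_iff_val] at h4
    exact h4

variable [IsAlgClosed k]

lemma IsUnif.exists_pow (hK : IsFunctionField k K) {P : ValuationSubring K} (hP : IsPoint k P)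
    {π : K} (h : IsUnif P π) {f : K} (hf0 : f ≠ 0) (hf : P.valuation f ≤ 1) :
    ∃ n : ℕ, P.valuation f = P.valuation π ^ n := by
  have hv0 : P.valuation f ≠ 0 := (Valuation.ne_zero_iff _).2 hf0
  have hπ0 : P.valuation π ≠ 0 := (Valuation.ne_zero_iff _).2 h.ne
  have hex : ∃ n : ℕ, P.valuation π ^ n ≤ P.valuation f := by
    obtain ⟨n, hn⟩ := arch hK hP h.lt h.ne f⁻¹
    refine ⟨n, ?_⟩
    rw [map_inv₀] at hn
    exact (inv_mul_le_one₀ (zero_lt_iff.2 hv0)).1 hn
  classical
  refine ⟨Nat.find hex, ?_⟩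
  have h1 := Nat.find_spec hex
  refine le_antisymm ?_ h1
  rcases Nat.eq_zero_or_pos (Nat.find hex) with h0 | hpos
  · rw [h0, pow_zero]; exact hf
  · obtain ⟨m, hm⟩ : ∃ m, Nat.find hex = m + 1 := ⟨Nat.find hex - 1, by omega⟩
    have h2 := Nat.find_min hex (m := m) (by omega)
    rw [not_le] at h2
    have h3 : P.valuation (f / π ^ m) < 1 := by
      rw [map_div₀, map_pow]
      exact (div_lt_one₀ (zero_lt_iff.2 (pow_ne_zero _ hπ0))).2 h2
    have h4 := h.le _ h3
    rw [map_div₀, map_pow, div_le_iff₀ (zero_lt_iff.2 (pow_ne_zero _ hπ0))] at h4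
    rw [hm, pow_succ']
    exact h4

/-- every nonzero function regular away from `P` has a pole order -/
lemma IsUnif.exists_order (hK : IsFunctionField k K) {P : ValuationSubring K} (hP : IsPoint k P)
    {π : K} (h : IsUnif P π) {f : K} (hf : f ∈ regularAway k P) (hf0 : f ≠ 0) :
    ∃ n : ℕ, P.valuation f = (P.valuation π)⁻¹ ^ n := by
  have hπ0 : P.valuation π ≠ 0 := (Valuation.ne_zero_iff _).2 h.ne
  by_cases h1 : P.valuation f ≤ 1
  · obtain ⟨c, hc⟩ := const_of_regular hf h1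
    refine ⟨0, ?_⟩
    rw [pow_zero, ← hc]
    apply val_const hP
    rintro rfl; rw [map_zero] at hc; exact hf0 hc.symm
  · rw [not_le] at h1
    have h2 : P.valuation f⁻¹ ≤ 1 := by
      rw [map_inv₀]; exact (inv_le_one₀ (lt_trans zero_lt_one h1)).2 h1.le
    obtain ⟨n, hn⟩ := h.exists_pow hK hP (inv_ne_zero hf0) h2
    refine ⟨n, ?_⟩
    rw [inv_pow, ← hn, map_inv₀, inv_inv]

end

end Pool.Agent.R857.WS
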