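import Pool.Agent.R857.WS.Unif
import Pool.Agent.R857.WS.Semi

set_option autoImplicit false
set_option linter.unusedSectionVars false

namespace Pool.Agent.R857.WS

open MvPolynomial IsLocalRing

/-- exponents `(i, j, l)` of normal form monomials of weight less than `N` -/
def expo (N : ℕ) : Finset (ℕ × ℕ × ℕ) :=
  (Finset.range 5 ×ˢ Finset.range 5 ×ˢ Finset.range 7).filter
    fun τ => 35 * τ.1 + 28 * τ.2.1 + 25 * τ.2.2 < N

/-- weight -/
def wt (τ : ℕ × ℕ × ℕ) : ℕ := 35 * τ.1 + 28 * τ.2.1 + 25 * τ.2.2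

lemma mem_expo {N : ℕ} (hN : N ≤ 175) (τ : ℕ × ℕ × ℕ) :
    τ ∈ expo N ↔ τ.2.1 < 5 ∧ τ.2.2 < 7 ∧ wt τ < N := by
  unfold expo wt
  simp only [Finset.mem_filter, Finset.mem_product, Finset.mem_range]
  omega

lemma card_expo : (expo 175).card + (expo 140).card = 107 := by decide +kernel

section general

variable {k : Type} [Field k] {R : Type} [CommRing R] [Algebra k R]

/-- the monomial with exponents `τ` -/
def mon (x y z : R) (τ : ℕ × ℕ × ℕ) : R := x ^ τ.1 * y ^ τ.2.1 * z ^ τ.2.2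

/-- the span of the normal form monomials of weight at most `N` -/
def W (k : Type) [Field k] {R : Type} [CommRing R] [Algebra k R] (x y z : R) (N : ℕ) :
    Submodule k R :=
  Submodule.span k (mon x y z '' {τ | τ.2.1 < 5 ∧ τ.2.2 < 7 ∧ wt τ ≤ N})

lemma W_mono (x y z : R) {N M : ℕ} (h : N ≤ M) : W k x y z N ≤ W k x y z M := by
  apply Submodule.span_mono
  apply Set.image_mono
  rintro τ ⟨h1, h2, h3⟩
  exact ⟨h1, h2, h3.trans h⟩

lemma mon_mul (x y z : R) (a b c : ℕ) (τ : ℕ × ℕ × ℕ) :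
    mon x y z (a, b, c) * mon x y z τ = mon x y z (a + τ.1, b + τ.2.1, c + τ.2.2) := by
  simp only [mon]; ring

/-- reduction to normal form -/
lemma mon_mem_W (x y z : R) (A : expo 175 → k) (B : expo 140 → k)
    (hz : z ^ 7 = x ^ 5 + ∑ τ : expo 175, A τ • mon x y z τ)
    (hy : y ^ 5 = x ^ 4 + ∑ τ : expo 140, B τ • mon x y z τ) :
    ∀ (N : ℕ) (s a b c : ℕ), b + c ≤ s → wt (a, b, c) ≤ N → mon x y z (a, b, c) ∈ W k x y z N := by
  intro N
  induction N using Nat.strong_induction_on with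
  | _ N ihN =>
    intro s
    induction s with
    | zero =>
      intro a b c hs hw
      exact Submodule.subset_span ⟨(a, b, c), ⟨by simp; omega, by simp; omega, hw⟩, rfl⟩
    | succ s ihs =>
      intro a b c hs hw
      have lower : ∀ τ : ℕ × ℕ × ℕ, ∀ a' b' c' : ℕ, wt (a', b', c') + wt τ < N →
          mon x y z (a', b', c') * mon x y z τ ∈ W k x y z N := by
        intro τ a' b' c' hlt
        rw [mon_mul]
        have h1 : wt (a' + τ.1, b' + τ.2.1, c' + τ.2.2) = wt (a', b', c') + wt τ := by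
          simp only [wt]; ring
        have h2 := ihN _ hlt (b' + τ.2.1 + (c' + τ.2.2)) (a' + τ.1) (b' + τ.2.1) (c' + τ.2.2) le_rfl
          (le_of_eq h1)
        exact W_mono x y z hlt.le h2
      by_cases hb : 5 ≤ b
      · obtain ⟨b', rfl⟩ : ∃ b', b = b' + 5 := ⟨b - 5, by omega⟩
        have e : mon x y z (a, b' + 5, c) = mon x y z (a + 4, b', c)
            + ∑ τ : expo 140, B τ • (mon x y z (a, b', c) * mon x y z τ) := by
          have e1 : mon x y z (a, b' + 5, c) = mon x y z (a, b', c) * y ^ 5 := by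
            simp only [mon]; ring
          rw [e1, hy, mul_add, Finset.mul_sum]
          congr 1
          · simp only [mon]; ring
          · refine Finset.sum_congr rfl fun τ _ => ?_
            rw [mul_smul_comm]
        rw [e]
        apply Submodule.add_mem
        · apply ihs
          · omega
          · simp only [wt] at hw ⊢; omega
        · refine Submodule.sum_mem _ fun τ _ => Submodule.smul_mem _ _ (lower _ _ _ _ ?_)
          have h3 := ((mem_expo (by norm_num) _).1 τ.2).2.2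
          simp only [wt] at hw h3 ⊢; omega
      by_cases hc : 7 ≤ c
      · obtain ⟨c', rfl⟩ : ∃ c', c = c' + 7 := ⟨c - 7, by omega⟩
        have e : mon x y z (a, b, c' + 7) = mon x y z (a + 5, b, c')
            + ∑ τ : expo 175, A τ • (mon x y z (a, b, c') * mon x y z τ) := by
          have e1 : mon x y z (a, b, c' + 7) = mon x y z (a, b, c') * z ^ 7 := by
            simp only [mon]; ring
          rw [e1, hz, mul_add, Finset.mul_sum]
          congr 1
          · simp only [mon]; ring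
          · refine Finset.sum_congr rfl fun τ _ => ?_
            rw [mul_smul_comm]
        rw [e]
        apply Submodule.add_mem
        · apply ihs
          · omega
          · simp only [wt] at hw ⊢; omega
        · refine Submodule.sum_mem _ fun τ _ => Submodule.smul_mem _ _ (lower _ _ _ _ ?_)
          have h3 := ((mem_expo (by norm_num) _).1 τ.2).2.2
          simp only [wt] at hw h3 ⊢; omega
      · exact Submodule.subset_span ⟨(a, b, c), ⟨by simp; omega, by simp; omega, hw⟩, rfl⟩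

/-- first equation -/
noncomputable def eq1 (A : expo 175 → k) : MvPolynomial (Fin 3) k :=
  X 2 ^ 7 - X 0 ^ 5 - ∑ τ : expo 175, A τ • mon (X 0) (X 1) (X 2) (τ : ℕ × ℕ × ℕ)

/-- second equation -/
noncomputable def eq2 (B : expo 140 → k) : MvPolynomial (Fin 3) k :=
  X 1 ^ 5 - X 0 ^ 4 - ∑ τ : expo 140, B τ • mon (X 0) (X 1) (X 2) (τ : ℕ × ℕ × ℕ)

lemma map_mon {R' : Type} [CommRing R'] [Algebra k R'] (φ : R →ₐ[k] R') (x y z : R)
    (τ : ℕ × ℕ × ℕ) : φ (mon x y z τ) = mon (φ x) (φ y) (φ z) τ := by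
  simp only [mon, map_mul, map_pow]

lemma map_eq1 (φ : MvPolynomial (Fin 3) k →ₐ[k] R) (A : expo 175 → k) :
    φ (eq1 A) = φ (X 2) ^ 7 - φ (X 0) ^ 5
      - ∑ τ : expo 175, A τ • mon (φ (X 0)) (φ (X 1)) (φ (X 2)) (τ : ℕ × ℕ × ℕ) := by
  simp only [eq1, map_sub, map_pow, map_sum, map_smul, map_mon]

lemma map_eq2 (φ : MvPolynomial (Fin 3) k →ₐ[k] R) (B : expo 140 → k) :
    φ (eq2 B) = φ (X 1) ^ 5 - φ (X 0) ^ 4
      - ∑ τ : expo 140, B τ • mon (φ (X 0)) (φ (X 1)) (φ (X 2)) (τ : ℕ × ℕ × ℕ) := by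
  simp only [eq2, map_sub, map_pow, map_sum, map_smul, map_mon]

/-- elements of an algebra generated by `x, y, z` are in the span of normal forms -/
lemma mem_span_of_rel (φ : MvPolynomial (Fin 3) k →ₐ[k] R) (A : expo 175 → k) (B : expo 140 → k)
    (h1 : φ (eq1 A) = 0) (h2 : φ (eq2 B) = 0) (q : MvPolynomial (Fin 3) k) :
    φ q ∈ Submodule.span k (Set.range (fun τ : {τ : ℕ × ℕ × ℕ // τ.2.1 < 5 ∧ τ.2.2 < 7} =>
      mon (φ (X 0)) (φ (X 1)) (φ (X 2)) τ)) := by
  rw [map_eq1, sub_sub, sub_eq_zero] at h1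
  rw [map_eq2, sub_sub, sub_eq_zero] at h2
  have hred := mon_mem_W _ _ _ A B h1 h2
  induction q using MvPolynomial.induction_on' with
  | monomial u a =>
    have h3 : (monomial u a : MvPolynomial (Fin 3) k) = a • mon (X 0) (X 1) (X 2) (u 0, u 1, u 2) := by
      rw [monomial_eq, Finsupp.prod_fintype _ _ (fun i => pow_zero _), Fin.prod_univ_three,
        smul_eq_C_mul]
      rfl
    rw [h3, map_smul, map_mon]
    apply Submodule.smul_mem
    refine Submodule.span_mono ?_ (hred (wt (u 0, u 1, u 2)) _ _ _ _ le_rfl le_rfl)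
    rintro _ ⟨τ, ⟨h4, h5, -⟩, rfl⟩
    exact ⟨⟨τ, h4, h5⟩, rfl⟩
  | add p q hp hq => rw [map_add]; exact Submodule.add_mem _ hp hq

/-- the kernel of the evaluation is generated by the two equations -/
lemma ker_eq (φ : MvPolynomial (Fin 3) k →ₐ[k] R) (A : expo 175 → k) (B : expo 140 → k)
    (h1 : φ (eq1 A) = 0) (h2 : φ (eq2 B) = 0)
    (hli : LinearIndependent k (fun τ : {τ : ℕ × ℕ × ℕ // τ.2.1 < 5 ∧ τ.2.2 < 7} =>
      mon (φ (X 0)) (φ (X 1)) (φ (X 2)) τ)) :
    RingHom.ker φ = Ideal.span {eq1 A, eq2 B} := by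
  have hJker : Ideal.span {eq1 A, eq2 B} ≤ RingHom.ker φ := by
    rw [Ideal.span_le]
    rintro g (rfl | rfl)
    · exact h1
    · exact h2
  refine le_antisymm (fun p hp => ?_) hJker
  set J : Ideal (MvPolynomial (Fin 3) k) := Ideal.span {eq1 A, eq2 B} with hJ
  have g1 : Ideal.Quotient.mkₐ k J (eq1 A) = 0 := by
    rw [Ideal.Quotient.mkₐ_eq_mk, Ideal.Quotient.eq_zero_iff_mem]; exact Ideal.subset_span (by simp)
  have g2 : Ideal.Quotient.mkₐ k J (eq2 B) = 0 := by
    rw [Ideal.Quotient.mkₐ_eq_mk, Ideal.Quotient.eq_zero_iff_mem]; exact Ideal.subset_span (by simp)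
  have hN' := mem_span_of_rel (Ideal.Quotient.mkₐ k J) A B g1 g2 p
  rw [Finsupp.mem_span_range_iff_exists_finsupp] at hN'
  obtain ⟨c, hc⟩ := hN'
  set q : MvPolynomial (Fin 3) k := c.sum fun τ a => a • mon (X 0) (X 1) (X 2) τ.1 with hq
  have hq1 : Ideal.Quotient.mkₐ k J q = Ideal.Quotient.mkₐ k J p := by
    rw [← hc, hq, Finsupp.sum, Finsupp.sum, map_sum]
    refine Finset.sum_congr rfl fun τ _ => ?_
    rw [map_smul, map_mon]
  have hpq : p - q ∈ J := by
    rw [← Ideal.Quotient.eq_zero_iff_mem, ← Ideal.Quotient.mkₐ_eq_mk k, map_sub, hq1, sub_self]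
  have hq0 : φ q = 0 := by
    have h3 : φ (p - q) = 0 := hJker hpq
    have h4 : φ p = 0 := hp
    rw [map_sub, h4, zero_sub, neg_eq_zero] at h3
    exact h3
  have hc0 : c = 0 := by
    rw [linearIndependent_iff] at hli
    apply hli
    rw [Finsupp.linearCombination_apply, ← hq0, hq, Finsupp.sum, Finsupp.sum, map_sum]
    refine Finset.sum_congr rfl fun τ _ => ?_
    rw [map_smul, map_mon]
  have : q = 0 := by rw [hq, hc0]; simp
  rw [this, sub_zero] at hpq
  exact hpq

end general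

end Pool.Agent.R857.WS
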